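import Pool.Agent.R526.RS.Up
import Pool.Agent.R526.TP.Num

set_option autoImplicit false

/-! # Gaps between randomly shifted primes -/

namespace Pool.Agent.R526.RS

open MeasureTheory ProbabilityTheory Filter Finset Topology Pool.Agent.R526.TP

open scoped Classical

variable {Ω : Type} [MeasurableSpace Ω] (μ : Measure Ω) [IsProbabilityMeasure μ] {ξ : ℕ → Ω → ℕ}

/-- the primes up to `2 ^ (k + 1)` -/
noncomputable def FF (p₀ k : ℕ) : Finset ℕ := (Icc 1 (2 ^ (k + 1))).filter (fun p => p.Prime ∧ p₀ ≤ p)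

/-- no good window is avoided -/
def Bad (ξ : ℕ → Ω → ℕ) (p₀ : ℕ) (κ c η : ℝ) (k : ℕ) : Set Ω :=
  ⋂ n ∈ SS κ c (((2 : ℝ) ^ k) ^ (1 - η)) (2 ^ k),
    (Av ξ (FF p₀ k) (Ioc n (n + ⌊c * (Real.log n) ^ 2⌋₊)))ᶜ

theorem bad_prob (hξ : ∀ p, Measurable (ξ p)) (hind : iIndepFun ξ μ) (A : ℕ) (hA : 1 ≤ A)
    (W : ℕ → ℕ) (hW : Tendsto (fun p : ℕ => (W p : ℝ) / Dl A p) atTop (𝓝 1)) (δ : ℝ) (hδ0 : 0 < δ)
    (hδ1 : δ ≤ 1) (p₀ : ℕ) (hp₀ : ∀ p, p.Prime → p₀ ≤ p → 1 ≤ W p)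
    (hlaw : ∀ p, p.Prime → p₀ ≤ p → Law μ (ξ p) p (W p) δ)
    (κ c η e : ℝ) (hκ : 0 < κ) (hc0 : 0 < c) (he : 0 < e) (he1 : e ≤ 1 / 10)
    (hc : c < 2 * Real.exp (-Real.eulerMascheroniConstant) * κ) (hη : 0 < η) (hη1 : η < 1)
    (hκη : κ * (-Real.log δ + 10 * e) + (1 + 10 * e) * (δ * c) ≤ 1 - 3 * η) :
    ∀ᶠ k : ℕ in atTop, μ.real (Bad ξ p₀ κ c η k) ≤ ((2 : ℝ) ^ (-η)) ^ k := by
  have e1 : ∀ᶠ k : ℕ in atTop, (2 * (c * (k : ℝ) ^ 2) + 1) ≤ 1 / 2 * ((2 : ℝ) ^ k) ^ η := by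
    have hr : (1 : ℝ) < (2 : ℝ) ^ η := Real.one_lt_rpow (by norm_num) hη
    have h1 := (tendsto_pow_const_div_const_pow_of_one_lt 2 hr).eventually_le_const
      (show (0 : ℝ) < 1 / (8 * (c + 1)) by positivity)
    have h2 := (tendsto_pow_atTop_atTop_of_one_lt hr).eventually_ge_atTop 8
    filter_upwards [h1, h2] with k h1 h2
    rw [div_le_iff₀ (by positivity)] at h1
    have h3 : ((2 : ℝ) ^ k) ^ η = ((2 : ℝ) ^ η) ^ k := by
      rw [← Real.rpow_natCast, ← Real.rpow_natCast, ← Real.rpow_mul (by norm_num), ← Real.rpow_mul (by norm_num), mul_comm]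
    rw [h3]
    set z := ((2 : ℝ) ^ η) ^ k with hz
    have h4 : (c + 1) * (k : ℝ) ^ 2 ≤ z / 8 := by
      rw [one_div, inv_mul_eq_div, le_div_iff₀ (by positivity)] at h1
      linarith
    nlinarith [sq_nonneg (k : ℝ)]
  obtain ⟨n₀, hn₀⟩ := eventually_atTop.1
    (one_low μ hξ hind A hA W hW δ hδ0 hδ1 p₀ hp₀ hlaw c κ e hc0 he he1)
  have ht : Tendsto (fun k : ℕ => ((2 : ℝ) ^ k) ^ (1 - η) / 2) atTop atTop := by
    apply Tendsto.atTop_div_const (by norm_num)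
    exact (tendsto_rpow_atTop (by linarith)).comp
      (tendsto_pow_atTop_atTop_of_one_lt (by norm_num : (1 : ℝ) < 2))
  filter_upwards [windows κ c η hκ hc hη, e1, eventually_ge_atTop 1, ht.eventually_ge_atTop (n₀ : ℝ)]
    with k hk h1 hk1 hkn
  set x : ℝ := (2 : ℝ) ^ k with hx
  have hx1 : 1 ≤ x := one_le_pow₀ (by norm_num)
  have hx0 : 0 < x := by linarith
  set y := x ^ (1 - η) with hy
  set S := SS κ c y (2 ^ k) with hS
  set B : ℕ → Set Ω := fun n => Av ξ (FF p₀ k) (Ioc n (n + ⌊c * (Real.log n) ^ 2⌋₊)) with hB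
  set V : ℕ := ⌊c * (Real.log x) ^ 2⌋₊ with hV
  have hlogx : Real.log x = k * Real.log 2 := by rw [hx, Real.log_pow]
  have hSx : ∀ n ∈ S, 1 ≤ n ∧ (n : ℝ) ≤ x := by
    intro n hn
    rw [hS] at hn
    unfold SS at hn
    rw [mem_filter, mem_Icc] at hn
    refine ⟨hn.1.1, ?_⟩
    have : (n : ℝ) ≤ ((2 ^ k : ℕ) : ℝ) := by exact_mod_cast hn.1.2
    push_cast at this
    exact this
  have hlogn : ∀ n ∈ S, 0 ≤ Real.log n ∧ Real.log n ≤ Real.log x := by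
    intro n hn
    obtain ⟨a1, a2⟩ := hSx n hn
    have a3 : (1 : ℝ) ≤ n := by exact_mod_cast a1
    exact ⟨Real.log_nonneg a3, Real.log_le_log (by linarith) a2⟩
  have hwV : ∀ n ∈ S, ⌊c * (Real.log n) ^ 2⌋₊ ≤ V := by
    intro n hn
    obtain ⟨a1, a2⟩ := hlogn n hn
    apply Nat.floor_le_floor
    gcongr
  have hsec := second_le μ B (fun n => Av_meas hξ _ _) S V (by
    intro n hn m hm hnm
    apply Av_neg μ hξ hind
    rw [disjoint_left]
    intro p hp hp'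
    rw [mem_Ioc] at hp hp'
    have := hwV n hn
    omega) (∑ n ∈ S, μ.real (B n)) rfl
  set E := ∑ n ∈ S, μ.real (B n) with hE
  have hEn : ∀ n ∈ S, x ^ (-(1 - 3 * η)) ≤ μ.real (B n) := by
    intro n hn
    obtain ⟨a1, a2⟩ := hlogn n hn
    have hn' := hn
    rw [hS] at hn'
    unfold SS at hn'
    rw [mem_filter] at hn'
    have hnn : n₀ ≤ n := by
      have : (n₀ : ℝ) ≤ n := hkn.trans hn'.2.1.le
      exact_mod_cast this
    have b1 := hn₀ n hnn (FF p₀ k) (by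
      intro p hp
      unfold FF at hp
      exact (mem_filter.1 hp).2) hn'.2.2
    refine le_trans ?_ b1
    rw [Real.rpow_def_of_pos hx0]
    apply Real.exp_le_exp.2
    have b2 : (κ * (-Real.log δ + 10 * e) + (1 + 10 * e) * (δ * c)) * Real.log n ≤
        (1 - 3 * η) * Real.log n := mul_le_mul_of_nonneg_right hκη a1
    have b0 : 0 ≤ κ * (-Real.log δ + 10 * e) + (1 + 10 * e) * (δ * c) := by
      have : Real.log δ ≤ 0 := Real.log_nonpos hδ0.le hδ1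
      have h1 : 0 ≤ -Real.log δ + 10 * e := by linarith
      positivity
    have b3 : (1 - 3 * η) * Real.log n ≤ (1 - 3 * η) * Real.log x :=
      mul_le_mul_of_nonneg_left a2 (b0.trans hκη)
    linarith
  have hElow : x ^ (2 * η) / 2 ≤ E := by
    have b1 : (S.card : ℝ) * x ^ (-(1 - 3 * η)) ≤ E := by
      rw [hE, ← nsmul_eq_mul, ← sum_const]
      exact sum_le_sum hEn
    refine le_trans ?_ b1
    calc x ^ (2 * η) / 2 = y / 2 * x ^ (-(1 - 3 * η)) := by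
          rw [hy, div_mul_eq_mul_div, ← Real.rpow_add hx0]
          congr 2
          ring
      _ ≤ S.card * x ^ (-(1 - 3 * η)) := by
          apply mul_le_mul_of_nonneg_right hk
          positivity
  have hE0 : 0 < E := lt_of_lt_of_le (by positivity) hElow
  have hb1 : μ.real (Bad ξ p₀ κ c η k) * E ≤ 2 * V + 1 := by
    have b1 : μ.real (Bad ξ p₀ κ c η k) * E ^ 2 ≤ (2 * V + 1) * E := hsec
    have b2 : μ.real (Bad ξ p₀ κ c η k) * E * E ≤ (2 * V + 1) * E := by nlinarith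
    exact le_of_mul_le_mul_right b2 hE0
  have hVle : (V : ℝ) ≤ c * (k : ℝ) ^ 2 := by
    have b1 : (V : ℝ) ≤ c * (Real.log x) ^ 2 := Nat.floor_le (by positivity)
    refine b1.trans ?_
    rw [hlogx]
    have b2 : Real.log 2 ≤ 1 := by
      have := Real.log_two_lt_d9
      linarith
    have b3 : (k : ℝ) * Real.log 2 ≤ k := by
      have : (0 : ℝ) ≤ k := Nat.cast_nonneg k
      nlinarith
    have b4 : 0 ≤ (k : ℝ) * Real.log 2 := by positivity
    gcongr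
  have hpow : ((2 : ℝ) ^ (-η)) ^ k = x ^ (-η) := by
    rw [hx, ← Real.rpow_natCast, ← Real.rpow_natCast, ← Real.rpow_mul (by norm_num), ← Real.rpow_mul (by norm_num), mul_comm]
  rw [hpow]
  have hfin : μ.real (Bad ξ p₀ κ c η k) * (x ^ (2 * η) / 2) ≤ 1 / 2 * x ^ η := by
    calc μ.real (Bad ξ p₀ κ c η k) * (x ^ (2 * η) / 2) ≤ μ.real (Bad ξ p₀ κ c η k) * E :=
          mul_le_mul_of_nonneg_left hElow measureReal_nonneg
      _ ≤ 2 * V + 1 := hb1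
      _ ≤ 2 * (c * (k : ℝ) ^ 2) + 1 := by linarith
      _ ≤ 1 / 2 * x ^ η := h1
  have hx2 : x ^ (2 * η) = x ^ η * x ^ η := by rw [← Real.rpow_add hx0]; congr 1; ring
  have hxn : x ^ (-η) = (x ^ η)⁻¹ := Real.rpow_neg hx0.le η
  have hxp : 0 < x ^ η := by positivity
  rw [hxn, ← one_div, le_div_iff₀ hxp]
  rw [hx2] at hfin
  have : μ.real (Bad ξ p₀ κ c η k) * x ^ η * (x ^ η / 2) ≤ 1 * (x ^ η / 2) := by nlinarith
  exact le_of_mul_le_mul_right this (by positivity)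

/-- choice of the parameters -/
theorem params (G D ε lδ δ : ℝ) (hG : 0 < G) (hδ : 0 < δ) (hlδ : 0 ≤ lδ) (hD : D = lδ / G + δ)
    (hε : 0 < ε) (hε1 : ε < 1 / D) :
    ∃ t c : ℝ, 0 < t ∧ t < 1 / 10 ∧ 0 < c ∧
      (c / G * (1 + t)) * (lδ + 10 * t) + (1 + 10 * t) * (δ * c) ≤ 1 - 3 * t ∧
      1 / D - ε ≤ c * (1 - 2 * t) ^ 2 := by
  have hD0 : 0 < D := by rw [hD]; positivity
  set c : ℝ := 1 / D - ε / 2 with hc
  have hc0 : 0 < c := by rw [hc]; linarith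
  have hval : c * D < 1 := by
    rw [hc, sub_mul, div_mul_cancel₀ _ hD0.ne']
    have : 0 < ε / 2 * D := by positivity
    linarith
  have hcont1 : ContinuousAt (fun t : ℝ => (c / G * (1 + t)) * (lδ + 10 * t) +
      (1 + 10 * t) * (δ * c) + 3 * t) 0 := by fun_prop
  have hcont2 : ContinuousAt (fun t : ℝ => c * (1 - 2 * t) ^ 2) 0 := by fun_prop
  have e1 : ∀ᶠ t : ℝ in 𝓝 0, (c / G * (1 + t)) * (lδ + 10 * t) +
      (1 + 10 * t) * (δ * c) + 3 * t < 1 := by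
    apply hcont1.eventually_lt continuousAt_const
    have : c / G * (1 + 0) * (lδ + 10 * 0) + (1 + 10 * 0) * (δ * c) + 3 * 0 = c * D := by
      rw [hD]
      field_simp
      ring
    rw [this]
    exact hval
  have e2 : ∀ᶠ t : ℝ in 𝓝 0, 1 / D - ε < c * (1 - 2 * t) ^ 2 := by
    apply continuousAt_const.eventually_lt hcont2
    have : c * (1 - 2 * 0) ^ 2 = c := by ring
    rw [this, hc]
    linarith
  have e3 : ∀ᶠ t : ℝ in 𝓝 0, t < 1 / 10 := eventually_lt_nhds (by norm_num)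
  obtain ⟨r, hr, hall⟩ := Metric.eventually_nhds_iff.1 (e1.and (e2.and e3))
  have hd : dist (r / 2) 0 < r := by
    rw [Real.dist_eq, sub_zero, abs_of_pos (by linarith)]
    linarith
  obtain ⟨g1, g2, g3⟩ := hall hd
  exact ⟨r / 2, c, by linarith, g3, hc0, by linarith, g2.le⟩

theorem shifted_eps (hξ : ∀ p, Measurable (ξ p)) (hind : iIndepFun ξ μ) (A : ℕ) (hA : 1 ≤ A)
    (W : ℕ → ℕ) (hW : Tendsto (fun p : ℕ => (W p : ℝ) / Dl A p) atTop (𝓝 1)) (δ : ℝ) (hδ0 : 0 < δ)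
    (hδ1 : δ ≤ 1) (p₀ : ℕ) (hp₀ : ∀ p, p.Prime → p₀ ≤ p → 1 ≤ W p)
    (hlaw : ∀ p, p.Prime → p₀ ≤ p → Law μ (ξ p) p (W p) δ) (ε : ℝ) (hε : 0 < ε) :
    ∀ᵐ ω ∂μ, ∀ᶠ x : ℝ in atTop, (∃ a b : ℕ, (∃ p : ℕ, p.Prime ∧ ξ p ω = a) ∧
      (∃ p : ℕ, p.Prime ∧ ξ p ω = b) ∧ a < b ∧ (b : ℝ) ≤ x ∧
      (∀ m : ℕ, (∃ p : ℕ, p.Prime ∧ ξ p ω = m) → ¬ (a < m ∧ m < b)) ∧
      (1 / (-Real.log δ / (2 * Real.exp (-Real.eulerMascheroniConstant)) + δ) - ε) *
        (Real.log x) ^ 2 ≤ (b : ℝ) - a) ∧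
      (∀ a b : ℕ, a < b → (b : ℝ) ≤ x →
        (∀ m : ℕ, (∃ p : ℕ, p.Prime ∧ ξ p ω = m) → ¬ (a < m ∧ m < b)) →
        (b : ℝ) - a ≤ (1 / δ + ε) * (Real.log x) ^ 2) := by
  set G : ℝ := 2 * Real.exp (-Real.eulerMascheroniConstant) with hG
  have hG0 : 0 < G := by positivity
  have hlδ : 0 ≤ -Real.log δ := by
    have : Real.log δ ≤ 0 := Real.log_nonpos hδ0.le hδ1
    linarith
  set D : ℝ := -Real.log δ / G + δ with hD
  have hD0 : 0 < D := by positivity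
  set ε' : ℝ := min ε (1 / D / 2) with hε'
  have hD1 : 0 < 1 / D := by positivity
  have hε'0 : 0 < ε' := lt_min hε (by linarith)
  have hε'1 : ε' < 1 / D := (min_le_right _ _).trans_lt (by linarith)
  obtain ⟨t, c, ht0, ht1, hc0, hp1, hp2⟩ := params G D ε' (-Real.log δ) δ hG0 hδ0 hlδ hD hε'0 hε'1
  have hκ : 0 < c / G * (1 + t) := by positivity
  have hcκ : c < G * (c / G * (1 + t)) := by
    have : G * (c / G * (1 + t)) = c * (1 + t) := by field_simp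
    rw [this]
    nlinarith
  have hbad := bad_prob μ hξ hind A hA W hW δ hδ0 hδ1 p₀ hp₀ hlaw (c / G * (1 + t)) c t t hκ hc0
    ht0 ht1.le hcκ ht0 (by linarith) hp1
  have hae1 := bc μ (Bad ξ p₀ (c / G * (1 + t)) c t) ((2 : ℝ) ^ (-t)) (by positivity)
    (Real.rpow_lt_one_of_one_lt_of_neg (by norm_num) (by linarith)) hbad
  have hae2 := cover μ hξ hind A hA W hW δ hδ0 p₀ hlaw (1 / δ + ε / 2) (by
    have : δ * (1 / δ + ε / 2) = 1 + δ * (ε / 2) := by field_simp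
    rw [this]
    have : 0 < δ * (ε / 2) := by positivity
    linarith)
  have hae3 : ∀ᵐ ω ∂μ, ∀ p : ℕ, p.Prime → p₀ ≤ p → p ≤ ξ p ω ∧ ξ p ω ≤ p + W p := by
    rw [ae_all_iff]
    intro p
    by_cases hp : p.Prime ∧ p₀ ≤ p
    · filter_upwards [ae_mem μ (hξ p) (hlaw p hp.1 hp.2) (hp₀ p hp.1 hp.2)] with ω hω _ _
      exact hω
    · filter_upwards with ω h1 h2
      exact absurd ⟨h1, h2⟩ hp
  have hsmall : ∀ᶠ k : ℕ in atTop, c * (Real.log ((2 : ℝ) ^ k)) ^ 2 ≤ (2 : ℝ) ^ k := by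
    have hpow : Tendsto (fun k : ℕ => ((2 : ℝ) ^ k)) atTop atTop :=
      tendsto_pow_atTop_atTop_of_one_lt (by norm_num : (1 : ℝ) < 2)
    have h1 := (Real.isLittleO_pow_log_id_atTop (n := 2)).bound (show (0 : ℝ) < 1 / c by positivity)
    filter_upwards [hpow.eventually h1, hpow.eventually_ge_atTop 1] with k h2 h3
    rw [Real.norm_of_nonneg (pow_nonneg (Real.log_nonneg h3) 2), id,
      Real.norm_of_nonneg (by linarith)] at h2
    have h4 : c * (Real.log ((2 : ℝ) ^ k)) ^ 2 ≤ c * (1 / c * (2 : ℝ) ^ k) :=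
      mul_le_mul_of_nonneg_left h2 hc0.le
    refine h4.trans (le_of_eq ?_)
    field_simp
  filter_upwards [hae1, hae2, hae3] with ω hω1 hω2 hω3
  have hcov2 : ∀ᶠ k : ℕ in atTop, ∃ q, (∃ p : ℕ, p.Prime ∧ ξ p ω = q) ∧ 2 ^ (k + 1) < q ∧
      q ≤ 2 ^ (k + 2) := by
    have hpowN : Tendsto (fun k : ℕ => 2 ^ (k + 1)) atTop atTop :=
      (tendsto_pow_atTop_atTop_of_one_lt (by norm_num : 1 < 2)).comp (tendsto_add_atTop_nat 1)
    have h1 : ∀ᶠ n : ℕ in atTop, ⌈(1 / δ + ε / 2) * (Real.log n) ^ 2⌉₊ ≤ n := by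
      have h2 : ∀ᶠ x : ℝ in atTop, (1 / δ + ε / 2) * (Real.log x) ^ 2 ≤ x := by
        have hC : 0 < 1 / δ + ε / 2 := by positivity
        have h1 := (Real.isLittleO_pow_log_id_atTop (n := 2)).bound
          (show (0 : ℝ) < 1 / (1 / δ + ε / 2) by positivity)
        filter_upwards [h1, eventually_ge_atTop (1 : ℝ)] with x h2 h3
        rw [Real.norm_of_nonneg (pow_nonneg (Real.log_nonneg h3) 2), id,
          Real.norm_of_nonneg (by linarith)] at h2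
        have h4 : (1 / δ + ε / 2) * (Real.log x) ^ 2 ≤ (1 / δ + ε / 2) * (1 / (1 / δ + ε / 2) * x) :=
          mul_le_mul_of_nonneg_left h2 hC.le
        refine h4.trans (le_of_eq ?_)
        field_simp
      filter_upwards [(tendsto_natCast_atTop_atTop (R := ℝ)).eventually h2] with n hn
      exact Nat.ceil_le.2 hn
    filter_upwards [hpowN.eventually hω2, hpowN.eventually h1] with k h3 h4
    obtain ⟨q, hq1, hq2, hq3⟩ := h3
    refine ⟨q, hq1, hq2, hq3.trans ?_⟩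
    have : 2 ^ (k + 2) = 2 ^ (k + 1) + 2 ^ (k + 1) := by ring
    rw [this]
    exact Nat.add_le_add_left h4 _
  have hgap := gap_of (fun m => ∃ p : ℕ, p.Prime ∧ ξ p ω = m) c t (1 / D - ε) hc0 ht0 (by linarith)
    (by
      have : ε' ≤ ε := min_le_left _ _
      linarith) (by
      set B : ℕ := ∑ p ∈ range p₀, ξ p ω with hB
      have htt : Tendsto (fun k : ℕ => ((2 : ℝ) ^ k) ^ (1 - t) / 2) atTop atTop := by
        apply Tendsto.atTop_div_const (by norm_num)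
        exact (tendsto_rpow_atTop (by linarith)).comp
          (tendsto_pow_atTop_atTop_of_one_lt (by norm_num : (1 : ℝ) < 2))
      filter_upwards [hω1, htt.eventually_ge_atTop (B : ℝ), hsmall] with k hk hkB hks
      unfold Bad at hk
      simp only [Set.mem_iInter, Set.mem_compl_iff, not_forall, not_not] at hk
      obtain ⟨n, hn, hd⟩ := hk
      rw [mem_Av] at hd
      unfold SS at hn
      rw [mem_filter, mem_Icc] at hn
      refine ⟨n, hn.1.1, hn.1.2, hn.2.1, ?_⟩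
      rintro m hm1 hm2 ⟨p, hp1, hp2⟩
      have hn1r : (1 : ℝ) ≤ n := by exact_mod_cast hn.1.1
      have hnr : (n : ℝ) ≤ (2 : ℝ) ^ k := by
        have : (n : ℝ) ≤ ((2 ^ k : ℕ) : ℝ) := by exact_mod_cast hn.1.2
        push_cast at this
        exact this
      have hw : ⌊c * (Real.log n) ^ 2⌋₊ ≤ 2 ^ k := by
        have h1 : (⌊c * (Real.log n) ^ 2⌋₊ : ℝ) ≤ c * (Real.log n) ^ 2 := Nat.floor_le (by positivity)
        have h2 : c * (Real.log n) ^ 2 ≤ c * (Real.log ((2 : ℝ) ^ k)) ^ 2 := by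
          have h3 : 0 ≤ Real.log n := Real.log_nonneg hn1r
          have h4 : Real.log n ≤ Real.log ((2 : ℝ) ^ k) := Real.log_le_log (by linarith) hnr
          gcongr
        have h3 : (⌊c * (Real.log n) ^ 2⌋₊ : ℝ) ≤ ((2 ^ k : ℕ) : ℝ) := by
          push_cast
          linarith
        exact_mod_cast h3
      have hpow2 : 2 ^ (k + 1) = 2 ^ k + 2 ^ k := by ring
      rcases Nat.lt_or_ge p p₀ with h | h
      · have h1 : ξ p ω ≤ B := by
          rw [hB]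
          exact single_le_sum (f := fun p => ξ p ω) (fun i _ => Nat.zero_le _) (mem_range.2 h)
        have h2 : (B : ℝ) < n := lt_of_le_of_lt hkB hn.2.1
        have h3 : B < n := by exact_mod_cast h2
        omega
      · have h1 := (hω3 p hp1 h).1
        have h2 : p ∈ FF p₀ k := by
          unfold FF
          rw [mem_filter, mem_Icc]
          exact ⟨⟨hp1.one_lt.le, by omega⟩, hp1, h⟩
        have h3 := hd p h2
        rw [hp2, mem_Ioc] at h3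
        exact h3 ⟨hm1, hm2⟩) hcov2
  have hupper := upper_of (fun m => ∃ p : ℕ, p.Prime ∧ ξ p ω = m) (1 / δ + ε / 2) (ε / 2)
    (by positivity) (by positivity) hω2
  filter_upwards [hgap, hupper] with x hx1 hx2
  refine ⟨?_, ?_⟩
  · obtain ⟨a, b, h1, h2, h3, h4, h5, h6⟩ := hx1
    exact ⟨a, b, h1, h2, h3, h4, h5, h6⟩
  · intro a b h1 h2 h3
    have := hx2 a b h1 h2 h3
    have e1 : 1 / δ + ε / 2 + ε / 2 = 1 / δ + ε := by ring
    rw [e1] at this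
    exact this

theorem shifted (hξ : ∀ p, Measurable (ξ p)) (hind : iIndepFun ξ μ) (A : ℕ) (hA : 1 ≤ A)
    (W : ℕ → ℕ) (hW : Tendsto (fun p : ℕ => (W p : ℝ) / Dl A p) atTop (𝓝 1)) (δ : ℝ) (hδ0 : 0 < δ)
    (hδ1 : δ ≤ 1) (p₀ : ℕ) (hlaw : ∀ p, p.Prime → p₀ ≤ p → Law μ (ξ p) p (W p) δ) :
    ∀ᵐ ω ∂μ, ∀ ε : ℝ, 0 < ε → ∀ᶠ x : ℝ in atTop,
      (∃ a b : ℕ, (∃ p : ℕ, p.Prime ∧ ξ p ω = a) ∧
      (∃ p : ℕ, p.Prime ∧ ξ p ω = b) ∧ a < b ∧ (b : ℝ) ≤ x ∧
      (∀ m : ℕ, (∃ p : ℕ, p.Prime ∧ ξ p ω = m) → ¬ (a < m ∧ m < b)) ∧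
      (1 / (Real.log (1 / δ) / (2 * Real.exp (-Real.eulerMascheroniConstant)) + δ) - ε) *
        (Real.log x) ^ 2 ≤ (b : ℝ) - a) ∧
      (∀ a b : ℕ, a < b → (b : ℝ) ≤ x →
        (∀ m : ℕ, (∃ p : ℕ, p.Prime ∧ ξ p ω = m) → ¬ (a < m ∧ m < b)) →
        (b : ℝ) - a ≤ (1 / δ + ε) * (Real.log x) ^ 2) := by
  have hlog : Real.log (1 / δ) = -Real.log δ := by rw [one_div, Real.log_inv]
  rw [hlog]
  -- the lengths of the shifts are positive from some point on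
  obtain ⟨p₁, hp₁⟩ := eventually_atTop.1 ((hW.eventually_const_le
    (show (1 / 2 : ℝ) < 1 by norm_num)).and (basic A 10 1 one_pos))
  have hWpos : ∀ p, p₁ ≤ p → 1 ≤ W p := by
    intro p hp
    obtain ⟨h1, h2, h3, -, -⟩ := hp₁ p hp
    have hD : 0 < Dl A p := by
      have : 0 < 10 * Real.log p ^ 2 := by positivity
      linarith
    rw [le_div_iff₀ hD] at h1
    have : (0 : ℝ) < W p := by linarith
    exact_mod_cast this
  have h1 : ∀ᵐ ω ∂μ, ∀ m : ℕ, ∀ᶠ x : ℝ in atTop, (∃ a b : ℕ, (∃ p : ℕ, p.Prime ∧ ξ p ω = a) ∧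
      (∃ p : ℕ, p.Prime ∧ ξ p ω = b) ∧ a < b ∧ (b : ℝ) ≤ x ∧
      (∀ m : ℕ, (∃ p : ℕ, p.Prime ∧ ξ p ω = m) → ¬ (a < m ∧ m < b)) ∧
      (1 / (-Real.log δ / (2 * Real.exp (-Real.eulerMascheroniConstant)) + δ) - 1 / ((m : ℝ) + 1)) *
        (Real.log x) ^ 2 ≤ (b : ℝ) - a) ∧
      (∀ a b : ℕ, a < b → (b : ℝ) ≤ x →
        (∀ m : ℕ, (∃ p : ℕ, p.Prime ∧ ξ p ω = m) → ¬ (a < m ∧ m < b)) →
        (b : ℝ) - a ≤ (1 / δ + 1 / ((m : ℝ) + 1)) * (Real.log x) ^ 2) := by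
    rw [ae_all_iff]
    intro m
    exact shifted_eps μ hξ hind A hA W hW δ hδ0 hδ1 (max p₀ p₁)
      (fun p _ hp => hWpos p ((le_max_right _ _).trans hp))
      (fun p hpp hp => hlaw p hpp ((le_max_left _ _).trans hp)) (1 / ((m : ℝ) + 1)) (by positivity)
  filter_upwards [h1] with ω hω ε hε
  obtain ⟨m, hm⟩ := exists_nat_one_div_lt hε
  filter_upwards [hω m] with x hx
  obtain ⟨⟨a, b, h2, h3, h4, h5, h6, h7⟩, h8⟩ := hx
  refine ⟨⟨a, b, h2, h3, h4, h5, h6, le_trans ?_ h7⟩, fun a b h9 h10 h11 => ?_⟩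
  · apply mul_le_mul_of_nonneg_right _ (sq_nonneg _)
    linarith
  · refine (h8 a b h9 h10 h11).trans ?_
    apply mul_le_mul_of_nonneg_right _ (sq_nonneg _)
    linarith

/-- the lower constant is larger than `1` for `4/5 ≤ δ < 1` -/
theorem const_gt (δ : ℝ) (h1 : 4 / 5 ≤ δ) (h2 : δ < 1) :
    1 < 1 / (Real.log (1 / δ) / (2 * Real.exp (-Real.eulerMascheroniConstant)) + δ) := by
  have h3 := TP.const_gt (1 - δ) (by linarith) (by linarith)
  have h4 : 1 - (1 - δ) = δ := by ring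
  rw [h4] at h3
  have hδ0 : 0 < δ := by linarith
  have hlog : 0 < Real.log (1 / δ) := Real.log_pos (by rw [lt_div_iff₀ hδ0]; linarith)
  have hG : 0 < 2 * Real.exp (-Real.eulerMascheroniConstant) := by positivity
  rw [div_lt_div_iff₀ (by linarith) hlog, one_mul] at h3
  rw [lt_div_iff₀ (by positivity), one_mul]
  have h5 : Real.log (1 / δ) / (2 * Real.exp (-Real.eulerMascheroniConstant)) < 1 - δ := by
    rw [div_lt_iff₀ hG]
    linarith
  linarith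

end Pool.Agent.R526.RS
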