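import Pool.Agent.Y829.LP2

set_option autoImplicit false

/-! # Primes and shifts near `n` -/

namespace Pool.Agent.R526.RS

open Filter Finset Topology

open scoped Classical

/-- `n / (log n)^A` -/
noncomputable def Dl (A : ℕ) (n : ℕ) : ℝ := (n : ℝ) / (Real.log n) ^ A

theorem Dl_mono (A : ℕ) (p n : ℕ) (hp : (A : ℝ) ≤ Real.log p) (hp0 : 0 < Real.log p) (hpn : p ≤ n) :
    Dl A p ≤ Dl A n := by
  unfold Dl
  have hppos : (0 : ℝ) < p := by
    rcases Nat.eq_zero_or_pos p with h | h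
    · rw [h] at hp0
      simp at hp0
    · exact_mod_cast h
  have hpnr : (p : ℝ) ≤ n := by exact_mod_cast hpn
  have hn0 : (0 : ℝ) < n := by linarith
  have hln : Real.log p ≤ Real.log n := Real.log_le_log hppos hpnr
  have hln0 : 0 < Real.log n := by linarith
  rw [div_le_div_iff₀ (by positivity) (by positivity)]
  set u := Real.log p with hu
  set v := Real.log n with hv
  have h1 : v ≤ u * Real.exp ((v - u) / u) := by
    have h2 := Real.add_one_le_exp ((v - u) / u)
    have h3 : v = u * ((v - u) / u + 1) := by field_simp; ring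
    calc v = u * ((v - u) / u + 1) := h3
      _ ≤ u * Real.exp ((v - u) / u) := mul_le_mul_of_nonneg_left h2 hp0.le
  have h2 : v ^ A ≤ u ^ A * Real.exp (v - u) := by
    calc v ^ A ≤ (u * Real.exp ((v - u) / u)) ^ A := pow_le_pow_left₀ hln0.le h1 A
      _ = u ^ A * Real.exp (A * ((v - u) / u)) := by rw [mul_pow, ← Real.exp_nat_mul]
      _ ≤ u ^ A * Real.exp (v - u) := by
          apply mul_le_mul_of_nonneg_left _ (by positivity)
          apply Real.exp_le_exp.2
          rw [mul_div_assoc', div_le_iff₀ hp0]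
          have : 0 ≤ v - u := by linarith
          nlinarith
  have h3 : Real.exp (v - u) = n / p := by
    rw [Real.exp_sub, hu, hv, Real.exp_log hppos, Real.exp_log hn0]
  rw [h3] at h2
  calc (p : ℝ) * v ^ A ≤ p * (u ^ A * (n / p)) := mul_le_mul_of_nonneg_left h2 hppos.le
    _ = n * u ^ A := by field_simp

/-- elementary asymptotic facts -/
theorem basic (A : ℕ) (M e : ℝ) (he : 0 < e) : ∀ᶠ n : ℕ in atTop, M ≤ Real.log n ∧
    M * (Real.log n) ^ 2 ≤ Dl A n ∧ (1 - e) * Real.log n ≤ Real.log (Dl A n) ∧ M ≤ n := by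
  have hL : Tendsto (fun n : ℕ => Real.log (n : ℝ)) atTop atTop :=
    Real.tendsto_log_atTop.comp tendsto_natCast_atTop_atTop
  have h1 := hL.eventually_ge_atTop (max M 1)
  have h2 : ∀ᶠ x : ℝ in atTop, |M| * (Real.log x) ^ (A + 2) ≤ x := by
    have h3 := (Real.isLittleO_pow_log_id_atTop (n := A + 2)).bound (show (0 : ℝ) < 1 / (|M| + 1) by positivity)
    filter_upwards [h3, eventually_ge_atTop (1 : ℝ)] with x h4 h5
    rw [Real.norm_of_nonneg (pow_nonneg (Real.log_nonneg h5) _), id,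
      Real.norm_of_nonneg (by linarith)] at h4
    have h6 : (|M| + 1) * (Real.log x) ^ (A + 2) ≤ (|M| + 1) * (1 / (|M| + 1) * x) :=
      mul_le_mul_of_nonneg_left h4 (by positivity)
    have h7 : (|M| + 1) * (1 / (|M| + 1) * x) = x := by field_simp
    rw [h7] at h6
    have h8 : 0 ≤ (Real.log x) ^ (A + 2) := pow_nonneg (Real.log_nonneg h5) _
    linarith
  have h3 : ∀ᶠ y : ℝ in atTop, A * Real.log y ≤ e * y := by
    have h4 := (Real.isLittleO_log_id_atTop).bound (show (0 : ℝ) < e / (A + 1) by positivity)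
    filter_upwards [h4, eventually_ge_atTop (1 : ℝ)] with y h5 h6
    rw [Real.norm_of_nonneg (Real.log_nonneg h6), id, Real.norm_of_nonneg (by linarith)] at h5
    have h7 : (A : ℝ) * Real.log y ≤ A * (e / (A + 1) * y) :=
      mul_le_mul_of_nonneg_left h5 (by positivity)
    refine h7.trans ?_
    have h8 : (A : ℝ) * (e / (A + 1) * y) = (A / (A + 1)) * (e * y) := by field_simp
    rw [h8]
    have h9 : (A : ℝ) / (A + 1) ≤ 1 := by
      rw [div_le_one (by positivity)]
      linarith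
    have h10 : 0 ≤ e * y := by positivity
    nlinarith
  have hN := tendsto_natCast_atTop_atTop (R := ℝ)
  filter_upwards [h1, hN.eventually h2, hL.eventually h3, hN.eventually_ge_atTop (max M 1)] with n g1 g2 g3 g4
  have hM : M ≤ Real.log n := (le_max_left _ _).trans g1
  have hL1 : 1 ≤ Real.log n := (le_max_right _ _).trans g1
  have hn1 : (1 : ℝ) ≤ n := (le_max_right _ _).trans g4
  refine ⟨hM, ?_, ?_, (le_max_left _ _).trans g4⟩
  · unfold Dl
    rw [le_div_iff₀ (by positivity)]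
    calc M * Real.log n ^ 2 * Real.log n ^ A = M * Real.log n ^ (A + 2) := by ring
      _ ≤ |M| * Real.log n ^ (A + 2) :=
          mul_le_mul_of_nonneg_right (le_abs_self M) (by positivity)
      _ ≤ n := g2
  · unfold Dl
    rw [Real.log_div (by positivity) (by positivity), Real.log_pow]
    linarith

/-- primes in the short intervals to the left of `n` -/
theorem primes_left (A : ℕ) (hA : 1 ≤ A) (e : ℝ) (he : 0 < e) (he1 : e ≤ 1 / 10) :
    ∀ᶠ n : ℕ in atTop,
    (((Icc 1 n).filter (fun p : ℕ => p.Prime ∧ (n : ℝ) - (1 + 2 * e) * Dl A n < p)).card : ℝ) ≤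
      (1 + 4 * e) * (Dl A n / Real.log n) ∧
    (1 - 4 * e) * (Dl A n / Real.log n) ≤
    (((Icc 1 n).filter (fun p : ℕ => p.Prime ∧ (n : ℝ) - (1 - 3 * e) * Dl A n < p)).card : ℝ) := by
  obtain ⟨X1, hX1⟩ := Pool.Agent.Y829.LP.short_pr (A + 1) (e / 4) (by positivity) (by linarith)
  filter_upwards [basic A (max (max ((2 : ℝ) ^ (A + 3)) (8 * (X1 + 1))) (8 / e + 10)) (e / 4) (by positivity)]
    with n hn
  obtain ⟨g1, g2, g3, g4⟩ := hn
  set L := Real.log n with hL
  set Δ := Dl A n with hΔ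
  have h8e : 0 < 8 / e := by positivity
  have a1 : (2 : ℝ) ^ (A + 3) ≤ L := (le_max_left _ _).trans ((le_max_left _ _).trans g1)
  have a2 : 8 / e + 10 ≤ L := (le_max_right _ _).trans g1
  have hL1 : 1 ≤ L := by linarith
  have hL0 : 0 < L := by linarith
  have hMΔ : max (max ((2 : ℝ) ^ (A + 3)) (8 * (X1 + 1))) (8 / e + 10) ≤ Δ := by
    refine le_trans ?_ g2
    have h1 : (1 : ℝ) ≤ L ^ 2 := one_le_pow₀ hL1
    have h2 : (0 : ℝ) ≤ max (max ((2 : ℝ) ^ (A + 3)) (8 * (X1 + 1))) (8 / e + 10) :=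
      (by positivity : (0 : ℝ) ≤ 8 / e + 10).trans (le_max_right _ _)
    exact le_mul_of_one_le_right h2 h1
  have a3 : 8 * ((X1 : ℝ) + 1) ≤ Δ := (le_max_right _ _).trans ((le_max_left _ _).trans hMΔ)
  have a4 : 8 / e + 10 ≤ Δ := (le_max_right _ _).trans hMΔ
  have a5 : (10 : ℝ) ≤ Δ := by linarith
  have a6 : 8 ≤ e * Δ := by
    have h1 : 8 / e ≤ Δ := by linarith
    rw [div_le_iff₀ he] at h1
    linarith
  have hn0 : (0 : ℝ) < n := by
    have h2 : 8 / e + 10 ≤ n := (le_max_right _ _).trans g4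
    linarith
  have hLA : L ≤ L ^ A := le_self_pow₀ hL1 (by omega)
  have hLA0 : 0 < L ^ A := by positivity
  have hΔL : Δ * L ^ A = n := by
    rw [hΔ, Dl, ← hL, div_mul_cancel₀ _ hLA0.ne']
  have hΔn : 10 * Δ ≤ n := by
    rw [← hΔL]
    have h1 : 10 ≤ L ^ A := by linarith
    have h2 := mul_le_mul_of_nonneg_left h1 (show 0 ≤ Δ by linarith)
    linarith
  -- the condition on the length
  have key : ∀ X : ℕ, Δ / 2 ≤ X → (X : ℝ) ≤ 2 * Δ → X1 ≤ X ∧ 2 * X ≤ n ∧ 0 < Real.log X ∧
      Real.log X ≤ L ∧ ((n - 2 * X : ℕ) : ℝ) ≤ X * Real.log X ^ (A + 1) := by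
    intro X h1 h2
    have hX0 : (0 : ℝ) < X := by linarith
    have h3 : (X1 : ℝ) ≤ X := by linarith
    have h4 : ((2 * X : ℕ) : ℝ) ≤ (n : ℝ) := by push_cast; linarith
    have h5 : L / 2 ≤ Real.log X := by
      have h6 : Real.log (Δ / 2) ≤ Real.log X := Real.log_le_log (by linarith) h1
      rw [Real.log_div (by linarith) (by norm_num)] at h6
      have h7 : Real.log 2 ≤ 1 := by
        have := Real.log_two_lt_d9
        linarith
      nlinarith
    have h6 : Real.log X ≤ L := Real.log_le_log hX0 (by linarith)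
    refine ⟨by exact_mod_cast h3, by exact_mod_cast h4, by linarith, h6, ?_⟩
    have h7 : ((n - 2 * X : ℕ) : ℝ) ≤ n := by exact_mod_cast Nat.sub_le _ _
    refine h7.trans ?_
    calc (n : ℝ) = Δ * L ^ A := hΔL.symm
      _ ≤ Δ / 2 * (L / 2) ^ (A + 1) := by
        have h8 : Δ / 2 * (L / 2) ^ (A + 1) = Δ * L ^ A * (L / 2 ^ (A + 2)) := by
          rw [div_pow, pow_succ L A, pow_succ (2 : ℝ) (A + 1)]
          field_simp
        rw [h8]
        have h9 : 1 ≤ L / 2 ^ (A + 2) := by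
          rw [le_div_iff₀ (by positivity), one_mul]
          refine le_trans ?_ a1
          exact pow_le_pow_right₀ (by norm_num) (by omega)
        exact le_mul_of_one_le_right (by positivity) h9
      _ ≤ X * Real.log X ^ (A + 1) := by
        apply mul_le_mul h1 _ (by positivity) (by positivity)
        exact pow_le_pow_left₀ (by linarith) h5 _
  constructor
  · -- upper bound
    set X := ⌈(1 + 2 * e) * Δ⌉₊ with hX
    have b1 : (1 + 2 * e) * Δ ≤ X := Nat.le_ceil _
    have b2 : (X : ℝ) < (1 + 2 * e) * Δ + 1 := Nat.ceil_lt_add_one (by positivity)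
    obtain ⟨k1, k2, k3, k4, k5⟩ := key X (by nlinarith) (by nlinarith)
    have hmain := (hX1 X k1 (n - 2 * X) k5).2
    rw [Pool.Agent.Y829.LP.pi_diff _ _ (by omega)] at hmain
    have e1 : X + (n - 2 * X) = n - X := by omega
    have e2 : 2 * X + (n - 2 * X) = n := by omega
    rw [e1, e2] at hmain
    have hsub : (Icc 1 n).filter (fun p : ℕ => p.Prime ∧ (n : ℝ) - (1 + 2 * e) * Δ < p) ⊆
        (Ioc (n - X) n).filter Nat.Prime := by
      intro p hp
      rw [mem_filter, mem_Icc] at hp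
      rw [mem_filter, mem_Ioc]
      obtain ⟨⟨q1, q2⟩, q3, q4⟩ := hp
      refine ⟨⟨?_, q2⟩, q3⟩
      have : (n : ℝ) < ((p + X : ℕ) : ℝ) := by push_cast; linarith
      have : n < p + X := by exact_mod_cast this
      omega
    have hc : (((Icc 1 n).filter (fun p : ℕ => p.Prime ∧ (n : ℝ) - (1 + 2 * e) * Δ < p)).card : ℝ) ≤
        (((Ioc (n - X) n).filter Nat.Prime).card : ℝ) := by exact_mod_cast card_le_card hsub
    refine hc.trans (hmain.trans ?_)
    have hlX : (1 - e / 4) * L ≤ Real.log X := by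
      refine g3.trans (Real.log_le_log (by linarith) ?_)
      nlinarith
    have hden : 0 < (1 - e / 4) * L := mul_pos (by linarith) hL0
    calc (1 + e / 4) * ((X : ℝ) / Real.log X) ≤ (1 + e / 4) * (((1 + 2 * e) * Δ + 1) / ((1 - e / 4) * L)) := by
          apply mul_le_mul_of_nonneg_left _ (by positivity)
          exact div_le_div₀ (by positivity) b2.le hden hlX
      _ ≤ (1 + 4 * e) * (Δ / L) := by
          rw [mul_div_assoc', mul_div_assoc', div_le_div_iff₀ hden hL0]
          have h1 : (1 + e / 4) * ((1 + 2 * e) * Δ + 1) ≤ (1 + 4 * e) * Δ * (1 - e / 4) := by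
            have h2 : (1 : ℝ) ≤ e * Δ / 8 := by linarith
            have h3 : (1 + e / 4) * ((1 + 2 * e) * Δ + 1) ≤ (1 + e / 4) * ((1 + 2 * e) * Δ + e * Δ / 8) :=
              mul_le_mul_of_nonneg_left (by linarith) (by positivity)
            have h4 : 0 ≤ e * Δ := by positivity
            have h5 : 0 ≤ e * Δ * (1 / 10 - e) := mul_nonneg h4 (by linarith)
            nlinarith
          calc (1 + e / 4) * ((1 + 2 * e) * Δ + 1) * L ≤ (1 + 4 * e) * Δ * (1 - e / 4) * L :=
                mul_le_mul_of_nonneg_right h1 hL0.le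
            _ = (1 + 4 * e) * Δ * ((1 - e / 4) * L) := by ring
  · -- lower bound
    set X := ⌊(1 - 3 * e) * Δ⌋₊ with hX
    have b1 : (X : ℝ) ≤ (1 - 3 * e) * Δ := Nat.floor_le (mul_nonneg (by linarith) (by linarith))
    have b2 : (1 - 3 * e) * Δ < X + 1 := Nat.lt_floor_add_one _
    obtain ⟨k1, k2, k3, k4, k5⟩ := key X (by nlinarith) (by nlinarith)
    have hmain := (hX1 X k1 (n - 2 * X) k5).1
    rw [Pool.Agent.Y829.LP.pi_diff _ _ (by omega)] at hmain
    have e1 : X + (n - 2 * X) = n - X := by omega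
    have e2 : 2 * X + (n - 2 * X) = n := by omega
    rw [e1, e2] at hmain
    have hsub : (Ioc (n - X) n).filter Nat.Prime ⊆
        (Icc 1 n).filter (fun p : ℕ => p.Prime ∧ (n : ℝ) - (1 - 3 * e) * Δ < p) := by
      intro p hp
      rw [mem_filter, mem_Ioc] at hp
      rw [mem_filter, mem_Icc]
      obtain ⟨⟨q1, q2⟩, q3⟩ := hp
      refine ⟨⟨q3.one_lt.le, q2⟩, q3, ?_⟩
      have h1 : n < p + X := by omega
      have : (n : ℝ) < ((p + X : ℕ) : ℝ) := by exact_mod_cast h1
      push_cast at this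
      linarith
    have hc : (((Ioc (n - X) n).filter Nat.Prime).card : ℝ) ≤
        (((Icc 1 n).filter (fun p : ℕ => p.Prime ∧ (n : ℝ) - (1 - 3 * e) * Δ < p)).card : ℝ) := by
      exact_mod_cast card_le_card hsub
    refine le_trans ?_ (hmain.trans hc)
    calc (1 - 4 * e) * (Δ / L) ≤ (1 - e / 4) * (((1 - 3 * e) * Δ - 1) / L) := by
          rw [mul_div_assoc', mul_div_assoc']
          apply div_le_div_of_nonneg_right _ hL0.le
          have h2 : (1 : ℝ) ≤ e * Δ / 8 := by linarith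
          have h3 : (1 - e / 4) * ((1 - 3 * e) * Δ - e * Δ / 8) ≤ (1 - e / 4) * ((1 - 3 * e) * Δ - 1) :=
            mul_le_mul_of_nonneg_left (by linarith) (by linarith)
          have h4 : 0 ≤ e * Δ := by positivity
          have h5 : 0 ≤ e * Δ * e := by positivity
          nlinarith
      _ ≤ (1 - e / 4) * ((X : ℝ) / Real.log X) := by
          apply mul_le_mul_of_nonneg_left _ (by linarith)
          exact div_le_div₀ (by positivity) (by linarith) k3 k4

/-- the shifts near `n` -/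
theorem shifts (A : ℕ) (hA : 1 ≤ A) (W : ℕ → ℕ)
    (hW : Tendsto (fun p : ℕ => (W p : ℝ) / Dl A p) atTop (𝓝 1)) (e : ℝ) (he : 0 < e)
    (he1 : e ≤ 1 / 10) (K : ℝ) : ∀ᶠ n : ℕ in atTop, K ≤ e * Dl A n ∧
    (∀ p : ℕ, p ≤ n → n < p + W p → (n : ℝ) - (1 + 2 * e) * Dl A n < p) ∧
    (∀ p : ℕ, p ≤ n → (n : ℝ) - (1 + 2 * e) * Dl A n < p → (1 - 2 * e) * Dl A n ≤ W p ∧
      (W p : ℝ) ≤ (1 + e) * Dl A n) ∧
    (∀ p : ℕ, n < p → p ≤ 2 * n → (1 / 2) ^ (A + 1) * Dl A n ≤ W p) ∧
    K * (Real.log n) ^ 2 ≤ e * Dl A n := by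
  obtain ⟨p₁, hp₁⟩ := eventually_atTop.1 ((hW.eventually_const_le (show 1 - e < 1 by linarith)).and
    ((hW.eventually_le_const (show (1 : ℝ) < 1 + e by linarith)).and (basic A (A + 1) 1 one_pos)))
  have hp₁' : ∀ p, p₁ ≤ p → (1 - e) * Dl A p ≤ W p ∧ (W p : ℝ) ≤ (1 + e) * Dl A p ∧
      (A : ℝ) + 1 ≤ Real.log p ∧ (0 : ℝ) < p := by
    intro p hp
    obtain ⟨h1, h2, h3, -, -, h4⟩ := hp₁ p hp
    have hp0 : (0 : ℝ) < p := by
      have : (0 : ℝ) ≤ A := Nat.cast_nonneg A
      linarith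
    have hl : 0 < Real.log p := by
      have : (0 : ℝ) ≤ A := Nat.cast_nonneg A
      linarith
    have hD : 0 < Dl A p := by unfold Dl; positivity
    rw [le_div_iff₀ hD] at h1
    rw [div_le_iff₀ hD] at h2
    exact ⟨h1, h2, h3, hp0⟩
  set B : ℝ := ∑ p ∈ range p₁, ((p : ℝ) + W p) with hB
  have hBp : ∀ p, p < p₁ → (p : ℝ) + W p ≤ B := by
    intro p hp
    rw [hB]
    exact single_le_sum (f := fun p : ℕ => (p : ℝ) + W p) (fun i _ => by positivity) (mem_range.2 hp)
  filter_upwards [basic A (max (max (B + 10) (10 / e)) (max (|K| / e) (2 * p₁))) 1 one_pos]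
    with n hn
  obtain ⟨g1, g2, g3, g4⟩ := hn
  set L := Real.log n with hL
  set Δ := Dl A n with hΔ
  have hB0 : 0 ≤ B := sum_nonneg fun i _ => by positivity
  have a1 : B + 10 ≤ L := (le_max_left _ _).trans ((le_max_left _ _).trans g1)
  have a2 : 10 / e ≤ L := (le_max_right _ _).trans ((le_max_left _ _).trans g1)
  have a3 : B + 10 ≤ n := (le_max_left _ _).trans ((le_max_left _ _).trans g4)
  have a4 : 2 * (p₁ : ℝ) ≤ n := (le_max_right _ _).trans ((le_max_right _ _).trans g4)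
  have hL1 : 1 ≤ L := by linarith
  have hL0 : 0 < L := by linarith
  have hn0 : (0 : ℝ) < n := by linarith
  have hLA : L ≤ L ^ A := le_self_pow₀ hL1 (by omega)
  have hLA0 : 0 < L ^ A := by positivity
  have hΔL : Δ * L ^ A = n := by
    rw [hΔ, Dl, ← hL, div_mul_cancel₀ _ hLA0.ne']
  have hΔ0 : 0 < Δ := by rw [hΔ, Dl]; positivity
  have hKL : |K| * L ^ 2 ≤ e * Δ := by
    have h1 : |K| / e * L ^ 2 ≤ Δ := by
      refine le_trans ?_ g2
      exact mul_le_mul_of_nonneg_right ((le_max_left _ _).trans (le_max_right _ _)) (by positivity)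
    calc |K| * L ^ 2 = e * (|K| / e * L ^ 2) := by field_simp
      _ ≤ e * Δ := mul_le_mul_of_nonneg_left h1 he.le
  have hKLe : K * L ^ 2 ≤ e * Δ :=
    (mul_le_mul_of_nonneg_right (le_abs_self K) (by positivity)).trans hKL
  have hKe : K ≤ e * Δ := by
    refine (le_abs_self K).trans (le_trans ?_ hKL)
    exact le_mul_of_one_le_right (abs_nonneg K) (one_le_pow₀ hL1)
  -- `Δ` is small compared to `n`
  have hΔsmall : 10 * Δ ≤ e * n := by
    rw [div_le_iff₀ he] at a2
    rw [← hΔL]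
    have h1 : 10 ≤ e * L ^ A := by nlinarith
    have h2 := mul_le_mul_of_nonneg_right h1 hΔ0.le
    linarith
  refine ⟨hKe, ?_, ?_, ?_, hKLe⟩
  · intro p hpn hW1
    by_cases hp : p₁ ≤ p
    · obtain ⟨h1, h2, h3, h4⟩ := hp₁' p hp
      have hA0 : (0 : ℝ) ≤ A := Nat.cast_nonneg A
      have h5 := Dl_mono A p n (by linarith) (by linarith) hpn
      have h6 : (n : ℝ) < p + W p := by exact_mod_cast hW1
      have h7 : (W p : ℝ) ≤ (1 + e) * Δ := h2.trans (mul_le_mul_of_nonneg_left h5 (by linarith))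
      have h8 : 0 < e * Δ := by positivity
      linarith
    · have h1 := hBp p (not_le.1 hp)
      have h6 : (n : ℝ) < p + W p := by exact_mod_cast hW1
      linarith
  · intro p hpn hp2
    have h2e : (1 + 2 * e) * Δ ≤ 2 * Δ := mul_le_mul_of_nonneg_right (by linarith) hΔ0.le
    have hen : e * n ≤ n / 10 := by nlinarith
    have hpbig : (p₁ : ℝ) ≤ p := by linarith
    have hpb : p₁ ≤ p := by exact_mod_cast hpbig
    obtain ⟨h1, h2, h3, h4⟩ := hp₁' p hpb
    have hA0 : (0 : ℝ) ≤ A := Nat.cast_nonneg A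
    have h5 := Dl_mono A p n (by linarith) (by linarith) hpn
    refine ⟨?_, h2.trans (mul_le_mul_of_nonneg_left h5 (by linarith))⟩
    refine le_trans ?_ h1
    have h6 : (1 - e) * Δ ≤ Dl A p := by
      have hpnr : (p : ℝ) ≤ n := by exact_mod_cast hpn
      have hlp : Real.log p ≤ L := Real.log_le_log h4 hpnr
      have h7 : (p : ℝ) / L ^ A ≤ Dl A p := by
        unfold Dl
        apply div_le_div_of_nonneg_left h4.le (pow_pos (by linarith) A)
        exact pow_le_pow_left₀ (by linarith) hlp A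
      refine le_trans ?_ h7
      rw [le_div_iff₀ hLA0, mul_assoc, hΔL]
      linarith
    have h7 := mul_le_mul_of_nonneg_left h6 (show 0 ≤ 1 - e by linarith)
    have h8 : 0 ≤ e ^ 2 * Δ := by positivity
    nlinarith
  · intro p hp1 hp2
    have hp1r : (n : ℝ) < p := by exact_mod_cast hp1
    have hp2r : (p : ℝ) ≤ 2 * n := by exact_mod_cast hp2
    have hpb : p₁ ≤ p := by
      have : (p₁ : ℝ) ≤ p := by
        have : (0 : ℝ) ≤ p₁ := Nat.cast_nonneg _
        linarith
      exact_mod_cast this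
    obtain ⟨h1, h2, h3, h4⟩ := hp₁' p hpb
    refine le_trans ?_ h1
    have hlp : Real.log p ≤ 2 * L := by
      have h5 : Real.log p ≤ Real.log (2 * n) := Real.log_le_log h4 hp2r
      rw [Real.log_mul (by norm_num) hn0.ne'] at h5
      have h7 : Real.log 2 ≤ 1 := by
        have := Real.log_two_lt_d9
        linarith
      linarith
    have h7 : (n : ℝ) / (2 * L) ^ A ≤ Dl A p := by
      have hA0 : (0 : ℝ) ≤ A := Nat.cast_nonneg A
      unfold Dl
      apply div_le_div₀ h4.le hp1r.le (pow_pos (by linarith) A)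
      exact pow_le_pow_left₀ (by linarith) hlp A
    have h8 : (n : ℝ) / (2 * L) ^ A = (1 / 2) ^ A * Δ := by
      rw [← hΔL, mul_pow, one_div, inv_pow]
      field_simp
    rw [h8] at h7
    have h9 : (1 / 2 : ℝ) ^ (A + 1) * Δ = 1 / 2 * ((1 / 2) ^ A * Δ) := by ring
    rw [h9]
    apply mul_le_mul (by linarith) h7 (by positivity) (by linarith)

end Pool.Agent.R526.RS
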