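import Pool.Agent.R526.RS.Law
import Pool.Agent.R526.RS.Pnt
import Pool.Agent.R526.TP.Fin

set_option autoImplicit false

/-! # Windows without shifted primes -/

namespace Pool.Agent.R526.RS

open MeasureTheory ProbabilityTheory Filter Finset Topology

open scoped Classical

variable {Ω : Type} [MeasurableSpace Ω] (μ : Measure Ω) [IsProbabilityMeasure μ] {ξ : ℕ → Ω → ℕ}

theorem exp_le_one_sub (a r : ℝ) (ha : 0 ≤ a) (ha1 : a < 1) (hr : a / (1 - a) ≤ r) :
    Real.exp (-r) ≤ 1 - a := by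
  have h0 : 0 < 1 - a := by linarith
  rw [Real.exp_neg, inv_le_comm₀ (Real.exp_pos _) h0]
  have h1 : (1 - a)⁻¹ = a / (1 - a) + 1 := by
    field_simp
    ring
  rw [h1]
  have h2 := Real.add_one_le_exp r
  linarith

/-- the probability that a window is avoided -/
theorem one_low (hξ : ∀ p, Measurable (ξ p)) (hind : iIndepFun ξ μ) (A : ℕ) (hA : 1 ≤ A)
    (W : ℕ → ℕ) (hW : Tendsto (fun p : ℕ => (W p : ℝ) / Dl A p) atTop (𝓝 1)) (δ : ℝ) (hδ0 : 0 < δ)
    (hδ1 : δ ≤ 1) (p₀ : ℕ) (hp₀ : ∀ p, p.Prime → p₀ ≤ p → 1 ≤ W p)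
    (hlaw : ∀ p, p.Prime → p₀ ≤ p → Law μ (ξ p) p (W p) δ)
    (c κ e : ℝ) (hc : 0 < c) (he : 0 < e) (he1 : e ≤ 1 / 10) :
    ∀ᶠ n : ℕ in atTop, ∀ F : Finset ℕ, (∀ p ∈ F, p.Prime ∧ p₀ ≤ p) →
      ((TP.TT n ⌊c * (Real.log n) ^ 2⌋₊).card : ℝ) ≤ κ * Real.log n →
      Real.exp (-((κ * (-Real.log δ + 10 * e) + (1 + 10 * e) * (δ * c)) * Real.log n)) ≤
        μ.real (Av ξ F (Ioc n (n + ⌊c * (Real.log n) ^ 2⌋₊))) := by
  filter_upwards [shifts A hA W hW e he he1 (c * 2 ^ (A + 1) + 1), primes_left A hA e he he1,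
    basic A 1 1 one_pos] with n hsh hpr hba F hF hcard
  obtain ⟨s0, s1, s2, s3, s4⟩ := hsh
  have hpr1 := hpr.1
  obtain ⟨hL1, hΔL, -, hn1⟩ := hba
  set L := Real.log n with hL
  set Δ := Dl A n with hΔ
  set w := ⌊c * L ^ 2⌋₊ with hw
  have hL0 : 0 < L := by linarith
  have hΔ0 : 0 < Δ := by
    have : 0 < L ^ 2 := by positivity
    linarith
  have hwr : (w : ℝ) ≤ c * L ^ 2 := Nat.floor_le (by positivity)
  have h2A : (1 : ℝ) ≤ 2 ^ (A + 1) := one_le_pow₀ (by norm_num)
  have hwΔ : (w : ℝ) * 2 ^ (A + 1) ≤ e * Δ := by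
    refine le_trans ?_ s4
    have h1 : (w : ℝ) * 2 ^ (A + 1) ≤ c * L ^ 2 * 2 ^ (A + 1) :=
      mul_le_mul_of_nonneg_right hwr (by positivity)
    have h2 : 0 ≤ L ^ 2 := by positivity
    nlinarith
  have hwΔ' : (w : ℝ) ≤ e * Δ := by
    refine le_trans ?_ hwΔ
    exact le_mul_of_one_le_right (Nat.cast_nonneg w) h2A
  have hwn : w ≤ n := by
    have h1 : e * Δ ≤ n := by
      have h2 : Δ ≤ n := by
        rw [hΔ, Dl, ← hL]
        exact div_le_self (by linarith) (one_le_pow₀ hL1)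
      nlinarith
    have : (w : ℝ) ≤ n := hwΔ'.trans h1
    exact_mod_cast this
  rw [Av_real μ hξ hind]
  set T := TP.TT n w with hT
  set R := (Icc 1 n).filter (fun p : ℕ => p.Prime ∧ (n : ℝ) - (1 + 2 * e) * Δ < p) with hR
  set u : ℝ := -Real.log δ + 10 * e with hu
  set a₀ : ℝ := δ * (w / ((1 - 2 * e) * Δ)) with ha₀
  set r : ℝ := a₀ / (1 - e) with hr
  have hden : 0 < (1 - 2 * e) * Δ := mul_pos (by linarith) hΔ0
  have hlogδ : Real.log δ ≤ 0 := Real.log_nonpos hδ0.le hδ1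
  have hu0 : 0 ≤ u := by rw [hu]; linarith
  have ha₀0 : 0 ≤ a₀ := by positivity
  have ha₀2 : a₀ ≤ e := by
    rw [ha₀]
    have h1 : (w : ℝ) / ((1 - 2 * e) * Δ) ≤ e := by
      rw [div_le_iff₀ hden]
      have h2 : (4 : ℝ) ≤ 2 ^ (A + 1) := by
        calc (4 : ℝ) = 2 ^ 2 := by norm_num
          _ ≤ 2 ^ (A + 1) := pow_le_pow_right₀ (by norm_num) (by omega)
      have h3 : (w : ℝ) * 4 ≤ e * Δ := (mul_le_mul_of_nonneg_left h2 (Nat.cast_nonneg w)).trans hwΔ
      have h4 : 0 ≤ e * Δ := by positivity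
      nlinarith
    calc δ * (w / ((1 - 2 * e) * Δ)) ≤ 1 * e := mul_le_mul hδ1 h1 (by positivity) (by norm_num)
      _ = e := one_mul e
  have hr0 : 0 ≤ r := div_nonneg ha₀0 (by linarith)
  have hterm : ∀ p ∈ F, Real.exp (-((if p ∈ T then u else 0) + (if p ∈ R then r else 0))) ≤
      1 - μ.real {ω | ξ p ω ∈ Ioc n (n + w)} := by
    intro p hp
    obtain ⟨hpp, hp0⟩ := hF p hp
    have hWp := hp₀ p hpp hp0
    have hWpr : (1 : ℝ) ≤ W p := by exact_mod_cast hWp
    have hl := hlaw p hpp hp0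
    rcases lt_or_ge n p with h | h
    · rcases lt_or_ge (n + w) p with h' | h'
      · rw [win_zero μ (hξ p) hl hWp n w (Or.inr h'), sub_zero]
        apply Real.exp_le_one_iff.2
        have h1 : (0 : ℝ) ≤ if p ∈ T then u else 0 := by split_ifs <;> [exact hu0; exact le_rfl]
        have h2 : (0 : ℝ) ≤ if p ∈ R then r else 0 := by split_ifs <;> [exact hr0; exact le_rfl]
        linarith
      · have hpT : p ∈ T := by
          rw [hT]
          unfold TP.TT
          rw [mem_filter, mem_Ioc]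
          exact ⟨⟨h, h'⟩, hpp⟩
        rw [if_pos hpT]
        have h1 := win_le μ (hξ p) hl hWp hδ0.le hδ1 n w
        have h2 := s3 p h (by omega)
        have h3 : (w : ℝ) / W p ≤ e := by
          rw [div_le_iff₀ (by linarith)]
          have h4 : e * ((1 / 2) ^ (A + 1) * Δ) ≤ e * W p := mul_le_mul_of_nonneg_left h2 he.le
          have h5 : (w : ℝ) = (w * 2 ^ (A + 1)) * (1 / 2) ^ (A + 1) := by
            rw [mul_assoc, ← mul_pow]
            norm_num
          have h6 : (w * 2 ^ (A + 1)) * (1 / 2 : ℝ) ^ (A + 1) ≤ e * Δ * (1 / 2) ^ (A + 1) :=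
            mul_le_mul_of_nonneg_right hwΔ (by positivity)
          linarith
        have h4 : Real.exp (-u) ≤ δ * (1 - w / W p) := by
          have h5 : Real.exp (-u) = δ * Real.exp (-(10 * e)) := by
            rw [hu, neg_add, neg_neg, Real.exp_add, Real.exp_log hδ0]
          rw [h5]
          apply mul_le_mul_of_nonneg_left _ hδ0.le
          have h6 : (0 : ℝ) ≤ w / W p := by positivity
          apply exp_le_one_sub _ _ h6 (by linarith)
          rw [div_le_iff₀ (by linarith)]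
          nlinarith
        have h5 : Real.exp (-(u + if p ∈ R then r else 0)) ≤ Real.exp (-u) := by
          apply Real.exp_le_exp.2
          have h2 : (0 : ℝ) ≤ if p ∈ R then r else 0 := by split_ifs <;> [exact hr0; exact le_rfl]
          linarith
        linarith
    · rcases le_or_gt (p + W p) n with h' | h'
      · rw [win_zero μ (hξ p) hl hWp n w (Or.inl h'), sub_zero]
        apply Real.exp_le_one_iff.2
        have h1 : (0 : ℝ) ≤ if p ∈ T then u else 0 := by split_ifs <;> [exact hu0; exact le_rfl]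
        have h2 : (0 : ℝ) ≤ if p ∈ R then r else 0 := by split_ifs <;> [exact hr0; exact le_rfl]
        linarith
      · have hpR : p ∈ R := by
          rw [hR, mem_filter, mem_Icc]
          exact ⟨⟨hpp.one_lt.le, h⟩, hpp, s1 p h h'⟩
        rw [if_pos hpR]
        have h1 := win_le' μ (hξ p) hl hWp hδ0.le n w h
        obtain ⟨h2, -⟩ := s2 p h (s1 p h h')
        have h3 : δ * (w / W p) ≤ a₀ := by
          rw [ha₀]
          apply mul_le_mul_of_nonneg_left _ hδ0.le
          exact div_le_div_of_nonneg_left (Nat.cast_nonneg w) hden h2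
        have h4 : Real.exp (-r) ≤ 1 - a₀ := by
          apply exp_le_one_sub _ _ ha₀0 (by linarith)
          rw [hr]
          exact div_le_div_of_nonneg_left ha₀0 (by linarith) (by linarith)
        have h5 : Real.exp (-((if p ∈ T then u else 0) + r)) ≤ Real.exp (-r) := by
          apply Real.exp_le_exp.2
          have h2 : (0 : ℝ) ≤ if p ∈ T then u else 0 := by split_ifs <;> [exact hu0; exact le_rfl]
          linarith
        linarith
  refine le_trans ?_ (Finset.prod_le_prod (fun p _ => (Real.exp_pos _).le) hterm)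
  rw [← Real.exp_sum]
  apply Real.exp_le_exp.2
  rw [sum_neg_distrib, neg_le_neg_iff, sum_add_distrib, ← sum_filter, ← sum_filter, sum_const, sum_const,
    nsmul_eq_mul, nsmul_eq_mul]
  have c1 : (((F.filter (fun p => p ∈ T)).card : ℕ) : ℝ) ≤ κ * L := by
    refine le_trans ?_ hcard
    exact_mod_cast card_le_card (fun p hp => (mem_filter.1 hp).2)
  have c2 : (((F.filter (fun p => p ∈ R)).card : ℕ) : ℝ) ≤ (1 + 4 * e) * (Δ / L) := by
    refine le_trans ?_ hpr1
    exact_mod_cast card_le_card (fun p hp => (mem_filter.1 hp).2)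
  have c3 : (((F.filter (fun p => p ∈ T)).card : ℕ) : ℝ) * u ≤ κ * L * u :=
    mul_le_mul_of_nonneg_right c1 hu0
  have c4 : (((F.filter (fun p => p ∈ R)).card : ℕ) : ℝ) * r ≤ (1 + 4 * e) * (Δ / L) * r :=
    mul_le_mul_of_nonneg_right c2 hr0
  have c5 : (1 + 4 * e) * (Δ / L) * r ≤ (1 + 10 * e) * (δ * c) * L := by
    rw [hr, ha₀]
    have h1 : (1 + 4 * e) * (Δ / L) * (δ * (w / ((1 - 2 * e) * Δ)) / (1 - e)) =
        (1 + 4 * e) / ((1 - 2 * e) * (1 - e)) * (δ * (w / L)) := by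
      have : (1 - 2 * e) ≠ 0 := by linarith
      have : (1 - e) ≠ 0 := by linarith
      field_simp
    rw [h1]
    have h2 : (1 + 4 * e) / ((1 - 2 * e) * (1 - e)) ≤ 1 + 10 * e := by
      rw [div_le_iff₀ (mul_pos (by linarith) (by linarith))]
      have h3 : 0 ≤ e * (1 / 10 - e) := mul_nonneg he.le (by linarith)
      have h4 : 0 ≤ e ^ 3 := by positivity
      nlinarith
    have h3 : (w : ℝ) / L ≤ c * L := by
      rw [div_le_iff₀ hL0]
      linarith
    calc (1 + 4 * e) / ((1 - 2 * e) * (1 - e)) * (δ * (w / L)) ≤ (1 + 10 * e) * (δ * (c * L)) := by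
          apply mul_le_mul h2 _ (by positivity) (by linarith)
          exact mul_le_mul_of_nonneg_left h3 hδ0.le
      _ = (1 + 10 * e) * (δ * c) * L := by ring
  calc _ ≤ κ * L * u + (1 + 10 * e) * (δ * c) * L := by linarith
    _ = (κ * u + (1 + 10 * e) * (δ * c)) * L := by ring

end Pool.Agent.R526.RS
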