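import Pool.Agent.R526.RS.Prob

set_option autoImplicit false

/-! # The law of a randomly shifted point -/

namespace Pool.Agent.R526.RS

open MeasureTheory ProbabilityTheory Filter Finset

open scoped Classical

variable {Ω : Type} [MeasurableSpace Ω] (μ : Measure Ω) [IsProbabilityMeasure μ]

/-- `X = p` with probability `1 - δ`, and `X = p + j` with probability `δ / W` for `1 ≤ j ≤ W` -/
def Law (X : Ω → ℕ) (p W : ℕ) (δ : ℝ) : Prop :=
  μ.real {ω | X ω = p} = 1 - δ ∧ ∀ j : ℕ, 1 ≤ j → j ≤ W → μ.real {ω | X ω = p + j} = δ / W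

variable {X : Ω → ℕ} {p W : ℕ} {δ : ℝ}

theorem real_union (hX : Measurable X) (F : Finset ℕ) :
    μ.real {ω | X ω ∈ F} = ∑ m ∈ F, μ.real {ω | X ω = m} := by
  have h1 : {ω | X ω ∈ F} = ⋃ m ∈ F, {ω | X ω = m} := by
    ext ω
    simp
  rw [h1, measureReal_biUnion_finset]
  · intro T _ T' _ hTT
    rw [Function.onFun, Set.disjoint_left]
    intro ω h2 h3
    exact hTT (h2.symm.trans h3)
  · intro m _
    exact hX (MeasurableSet.of_discrete (s := {m}))

theorem total (hX : Measurable X) (h : Law μ X p W δ) (hW : 1 ≤ W) :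
    μ.real {ω | X ω ∈ Icc p (p + W)} = 1 := by
  rw [real_union μ hX]
  have h1 : Icc p (p + W) = insert p ((Icc 1 W).image (fun j => p + j)) := by
    ext m
    rw [mem_insert, mem_image, mem_Icc]
    constructor
    · rintro ⟨a, b⟩
      rcases eq_or_ne m p with h | h
      · exact Or.inl h
      · exact Or.inr ⟨m - p, by rw [mem_Icc]; omega, by omega⟩
    · rintro (h | ⟨j, hj, rfl⟩)
      · omega
      · rw [mem_Icc] at hj
        omega
  rw [h1, sum_insert]
  · rw [sum_image (by intro a _ b _ hab; simpa using hab), h.1,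
      sum_congr rfl (fun j hj => h.2 j (mem_Icc.1 hj).1 (mem_Icc.1 hj).2), sum_const, Nat.card_Icc,
      Nat.add_sub_cancel, nsmul_eq_mul]
    have : (0 : ℝ) < W := by exact_mod_cast hW
    field_simp
    ring
  · rw [mem_image]
    rintro ⟨j, hj, hjp⟩
    rw [mem_Icc] at hj
    omega

theorem ae_mem (hX : Measurable X) (h : Law μ X p W δ) (hW : 1 ≤ W) :
    ∀ᵐ ω ∂μ, p ≤ X ω ∧ X ω ≤ p + W := by
  have h1 := total μ hX h hW
  have hmeas : MeasurableSet {ω | X ω ∈ Icc p (p + W)} :=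
    hX (MeasurableSet.of_discrete (s := {m | m ∈ Icc p (p + W)}))
  have h3 : μ {ω | X ω ∈ Icc p (p + W)} = 1 := by
    rw [Measure.real] at h1
    exact (ENNReal.toReal_eq_one_iff _).1 h1
  have h4 : ∀ᵐ ω ∂μ, X ω ∈ Icc p (p + W) := (prob_compl_eq_zero_iff hmeas).2 h3
  filter_upwards [h4] with ω hω
  exact mem_Icc.1 hω

theorem zero_of (hX : Measurable X) (h : Law μ X p W δ) (hW : 1 ≤ W) (m : ℕ)
    (hm : m ∉ Icc p (p + W)) : μ.real {ω | X ω = m} = 0 := by
  have h1 := ae_mem μ hX h hW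
  have h2 : μ {ω | X ω = m} = 0 := by
    refine measure_mono_null ?_ h1
    intro ω hω hc
    rw [Set.mem_setOf_eq] at hω hc
    rw [hω] at hc
    exact hm (mem_Icc.2 hc)
  rw [Measure.real, h2]
  simp

theorem point_le (hX : Measurable X) (h : Law μ X p W δ) (hW : 1 ≤ W) (hδ0 : 0 ≤ δ) (m : ℕ) :
    m ≠ p → μ.real {ω | X ω = m} ≤ δ / W := by
  intro hmp
  by_cases hm : m ∈ Icc p (p + W)
  · rw [mem_Icc] at hm
    have h1 := h.2 (m - p) (by omega) (by omega)
    have h2 : p + (m - p) = m := by omega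
    rw [h2] at h1
    exact h1.le
  · rw [zero_of μ hX h hW m hm]
    positivity

/-- upper bound for a window -/
theorem win_le (hX : Measurable X) (h : Law μ X p W δ) (hW : 1 ≤ W) (hδ0 : 0 ≤ δ) (hδ1 : δ ≤ 1)
    (n w : ℕ) : μ.real {ω | X ω ∈ Ioc n (n + w)} ≤ (1 - δ) + δ * (w / W) := by
  rw [real_union μ hX]
  have h1 : ∀ m ∈ Ioc n (n + w), μ.real {ω | X ω = m} ≤ (if m = p then 1 - δ else 0) + δ / W := by
    intro m _
    by_cases hm : m = p
    · rw [if_pos hm, hm, h.1]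
      have : 0 ≤ δ / W := by positivity
      linarith
    · rw [if_neg hm, zero_add]
      exact point_le μ hX h hW hδ0 m hm
  refine (sum_le_sum h1).trans ?_
  rw [sum_add_distrib, sum_const, Nat.card_Ioc, nsmul_eq_mul]
  have h2 : ∑ m ∈ Ioc n (n + w), (if m = p then 1 - δ else 0) ≤ 1 - δ := by
    rw [sum_ite_eq']
    split_ifs
    · exact le_rfl
    · linarith
  have h3 : ((n + w - n : ℕ) : ℝ) = w := by
    congr 1
    omega
  rw [h3]
  have h4 : (w : ℝ) * (δ / W) = δ * (w / W) := by ring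
  linarith

theorem win_le' (hX : Measurable X) (h : Law μ X p W δ) (hW : 1 ≤ W) (hδ0 : 0 ≤ δ)
    (n w : ℕ) (hpn : p ≤ n) : μ.real {ω | X ω ∈ Ioc n (n + w)} ≤ δ * (w / W) := by
  rw [real_union μ hX]
  have h1 : ∀ m ∈ Ioc n (n + w), μ.real {ω | X ω = m} ≤ δ / W := by
    intro m hm
    rw [mem_Ioc] at hm
    exact point_le μ hX h hW hδ0 m (by omega)
  refine (sum_le_sum h1).trans ?_
  rw [sum_const, Nat.card_Ioc, nsmul_eq_mul]
  have h3 : ((n + w - n : ℕ) : ℝ) = w := by
    congr 1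
    omega
  rw [h3]
  apply le_of_eq
  ring

theorem win_zero (hX : Measurable X) (h : Law μ X p W δ) (hW : 1 ≤ W)
    (n w : ℕ) (hpn : p + W ≤ n ∨ n + w < p) : μ.real {ω | X ω ∈ Ioc n (n + w)} = 0 := by
  rw [real_union μ hX]
  apply sum_eq_zero
  intro m hm
  rw [mem_Ioc] at hm
  apply zero_of μ hX h hW m
  rw [mem_Icc]
  omega

theorem win_eq (hX : Measurable X) (h : Law μ X p W δ)
    (n w : ℕ) (hpn : p ≤ n) (hw : n + w ≤ p + W) :
    μ.real {ω | X ω ∈ Ioc n (n + w)} = δ * (w / W) := by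
  rw [real_union μ hX]
  have h1 : ∀ m ∈ Ioc n (n + w), μ.real {ω | X ω = m} = δ / W := by
    intro m hm
    rw [mem_Ioc] at hm
    have h1 := h.2 (m - p) (by omega) (by omega)
    have h2 : p + (m - p) = m := by omega
    rw [h2] at h1
    exact h1
  rw [sum_congr rfl h1, sum_const, Nat.card_Ioc, nsmul_eq_mul]
  have h3 : ((n + w - n : ℕ) : ℝ) = w := by
    congr 1
    omega
  rw [h3]
  ring

end Pool.Agent.R526.RS
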