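import Pool.Agent.R526.TP.Prob

set_option autoImplicit false

/-! # Randomly shifted points: second moment, Borel-Cantelli, products -/

namespace Pool.Agent.R526.RS

open MeasureTheory ProbabilityTheory Filter Finset

open scoped Classical

variable {Ω : Type} [MeasurableSpace Ω] (μ : Measure Ω) [IsProbabilityMeasure μ]

/-- second moment method for events which are negatively correlated when their indices are far apart -/
theorem second_le (A : ℕ → Set Ω) (hA : ∀ n, MeasurableSet (A n)) (S : Finset ℕ) (W : ℕ)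
    (hind : ∀ n ∈ S, ∀ m ∈ S, n + W < m → μ.real (A n ∩ A m) ≤ μ.real (A n) * μ.real (A m))
    (E : ℝ) (hE : E = ∑ n ∈ S, μ.real (A n)) :
    μ.real (⋂ n ∈ S, (A n)ᶜ) * E ^ 2 ≤ (2 * W + 1) * E := by
  set f : ℕ → Ω → ℝ := fun n => (A n).indicator (fun _ => (1 : ℝ)) with hf
  have hfi : ∀ n, Integrable (f n) μ := fun n => (integrable_const (1 : ℝ)).indicator (hA n)
  have hff : ∀ n m, Integrable (fun ω => f n ω * f m ω) μ := by
    intro n m
    have : (fun ω => f n ω * f m ω) = (A n ∩ A m).indicator (fun _ => (1 : ℝ)) := by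
      funext ω
      simp only [hf, Set.indicator, Set.mem_inter_iff]
      by_cases h1 : ω ∈ A n <;> by_cases h2 : ω ∈ A m <;> simp [h1, h2]
    rw [this]
    exact (integrable_const (1 : ℝ)).indicator ((hA n).inter (hA m))
  have hI1 : ∀ n, ∫ ω, f n ω ∂μ = μ.real (A n) := by
    intro n
    simp only [hf]
    rw [integral_indicator (hA n)]
    simp [Measure.real]
  have hI2 : ∀ n m, ∫ ω, f n ω * f m ω ∂μ = μ.real (A n ∩ A m) := by
    intro n m
    have : (fun ω => f n ω * f m ω) = (A n ∩ A m).indicator (fun _ => (1 : ℝ)) := by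
      funext ω
      simp only [hf, Set.indicator, Set.mem_inter_iff]
      by_cases h1 : ω ∈ A n <;> by_cases h2 : ω ∈ A m <;> simp [h1, h2]
    rw [this, integral_indicator ((hA n).inter (hA m))]
    simp [Measure.real]
  set B : Set Ω := ⋂ n ∈ S, (A n)ᶜ with hB
  have hBm : MeasurableSet B := MeasurableSet.biInter S.countable_toSet fun n _ => (hA n).compl
  set g : Ω → ℝ := fun ω => (∑ n ∈ S, f n ω - E) ^ 2 with hg
  have hgexp : ∀ ω, g ω = ∑ n ∈ S, ∑ m ∈ S, f n ω * f m ω - 2 * E * ∑ n ∈ S, f n ω + E ^ 2 := by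
    intro ω
    simp only [hg]
    rw [← sum_mul_sum]
    ring
  have hgi : Integrable g μ := by
    have : g = fun ω => ∑ n ∈ S, ∑ m ∈ S, f n ω * f m ω - 2 * E * ∑ n ∈ S, f n ω + E ^ 2 :=
      funext hgexp
    rw [this]
    refine Integrable.add (Integrable.sub ?_ ?_) (integrable_const _)
    · exact integrable_finset_sum _ fun n _ => integrable_finset_sum _ fun m _ => hff n m
    · exact (integrable_finset_sum _ fun n _ => hfi n).const_mul _
  have hgint : ∫ ω, g ω ∂μ = ∑ n ∈ S, ∑ m ∈ S, μ.real (A n ∩ A m) - E ^ 2 := by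
    have : g = fun ω => ∑ n ∈ S, ∑ m ∈ S, f n ω * f m ω - 2 * E * ∑ n ∈ S, f n ω + E ^ 2 :=
      funext hgexp
    rw [this]
    have i1 : Integrable (fun ω => ∑ n ∈ S, ∑ m ∈ S, f n ω * f m ω) μ :=
      integrable_finset_sum _ fun n _ => integrable_finset_sum _ fun m _ => hff n m
    have i2 : Integrable (fun ω => 2 * E * ∑ n ∈ S, f n ω) μ :=
      (integrable_finset_sum _ fun n _ => hfi n).const_mul _
    have i3 : Integrable (fun ω => ∑ n ∈ S, ∑ m ∈ S, f n ω * f m ω - 2 * E * ∑ n ∈ S, f n ω) μ :=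
      i1.sub i2
    rw [integral_add i3 (integrable_const _), integral_sub i1 i2, integral_const_mul,
      integral_finset_sum _ fun n _ => hfi n,
      integral_finset_sum _ fun n _ => integrable_finset_sum _ fun m _ => hff n m]
    have h1 : ∀ n ∈ S, ∫ ω, ∑ m ∈ S, f n ω * f m ω ∂μ = ∑ m ∈ S, μ.real (A n ∩ A m) := by
      intro n _
      rw [integral_finset_sum _ fun m _ => hff n m]
      exact sum_congr rfl fun m _ => hI2 n m
    rw [sum_congr rfl h1, sum_congr rfl fun n _ => hI1 n, ← hE]
    simp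
    ring
  have hlow : μ.real B * E ^ 2 ≤ ∫ ω, g ω ∂μ := by
    have h1 : ∫ ω, B.indicator (fun _ => E ^ 2) ω ∂μ = μ.real B * E ^ 2 := by
      rw [integral_indicator hBm]
      simp [Measure.real]
    rw [← h1]
    apply integral_mono ((integrable_const _).indicator hBm) hgi
    intro ω
    simp only [Set.indicator]
    split_ifs with h
    · simp only [hg]
      have h2 : ∑ n ∈ S, f n ω = 0 := by
        apply sum_eq_zero
        intro n hn
        simp only [hf]
        apply Set.indicator_of_notMem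
        rw [hB] at h
        have h3 := Set.mem_iInter₂.1 h n hn
        exact h3
      rw [h2]
      apply le_of_eq
      ring
    · exact sq_nonneg _
  have hup : ∑ n ∈ S, ∑ m ∈ S, μ.real (A n ∩ A m) ≤ E ^ 2 + (2 * W + 1) * E := by
    have h1 : ∀ n ∈ S, ∑ m ∈ S, μ.real (A n ∩ A m) ≤ μ.real (A n) * E + (2 * W + 1) * μ.real (A n) := by
      intro n hn
      rw [← sum_filter_add_sum_filter_not S (fun m => n + W < m ∨ m + W < n)]
      apply add_le_add
      · rw [hE, mul_sum]
        refine le_trans (sum_le_sum (g := fun m => μ.real (A n) * μ.real (A m)) ?_) ?_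
        · intro m hm
          rw [mem_filter] at hm
          rcases hm.2 with h | h
          · exact hind n hn m hm.1 h
          · rw [Set.inter_comm, mul_comm]
            exact hind m hm.1 n hn h
        · apply sum_le_sum_of_subset_of_nonneg (filter_subset _ _)
          intro m _ _
          exact mul_nonneg measureReal_nonneg measureReal_nonneg
      · have h2 : S.filter (fun m => ¬ (n + W < m ∨ m + W < n)) ⊆ Icc (n - W) (n + W) := by
          intro m hm
          rw [mem_filter] at hm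
          rw [mem_Icc]
          have := hm.2
          push Not at this
          omega
        have h3 : (Icc (n - W) (n + W)).card ≤ 2 * W + 1 := by
          rw [Nat.card_Icc]
          omega
        calc ∑ m ∈ S.filter (fun m => ¬ (n + W < m ∨ m + W < n)), μ.real (A n ∩ A m)
            ≤ ∑ m ∈ S.filter (fun m => ¬ (n + W < m ∨ m + W < n)), μ.real (A n) := by
              apply sum_le_sum
              intro m _
              exact measureReal_mono Set.inter_subset_left
          _ = ((S.filter (fun m => ¬ (n + W < m ∨ m + W < n))).card : ℝ) * μ.real (A n) := by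
              rw [sum_const, nsmul_eq_mul]
          _ ≤ (2 * W + 1) * μ.real (A n) := by
              apply mul_le_mul_of_nonneg_right _ measureReal_nonneg
              exact_mod_cast (card_le_card h2).trans h3
    refine (sum_le_sum h1).trans ?_
    rw [sum_add_distrib, ← sum_mul, ← mul_sum, ← hE]
    apply le_of_eq
    ring
  have := hlow.trans (hgint.le)
  linarith

/-- Borel-Cantelli with summable bounds -/
theorem bc_sum (s : ℕ → Set Ω) (f : ℕ → ℝ) (hf0 : ∀ n, 0 ≤ f n) (hf : Summable f)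
    (h : ∀ᶠ k in atTop, μ.real (s k) ≤ f k) : ∀ᵐ ω ∂μ, ∀ᶠ k in atTop, ω ∉ s k := by
  obtain ⟨k₀, hk₀⟩ := eventually_atTop.1 h
  set t : ℕ → Set Ω := fun k => if k₀ ≤ k then s k else ∅ with ht
  have h1 : ∀ k, μ (t k) ≤ ENNReal.ofReal (f k) := by
    intro k
    simp only [ht]
    split_ifs with hk
    · rw [ENNReal.le_ofReal_iff_toReal_le (measure_ne_top _ _) (hf0 k)]
      exact hk₀ k hk
    · simp
  have h2 : ∑' k, μ (t k) ≠ ⊤ := by
    have h3 : ∑' k, ENNReal.ofReal (f k) = ENNReal.ofReal (∑' k, f k) :=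
      (ENNReal.ofReal_tsum_of_nonneg hf0 hf).symm
    have h4 := ENNReal.tsum_le_tsum h1
    rw [h3] at h4
    exact ne_top_of_le_ne_top ENNReal.ofReal_ne_top h4
  filter_upwards [ae_eventually_notMem h2] with ω hω
  filter_upwards [hω, eventually_ge_atTop k₀] with k hk hkk
  simp only [ht, if_pos hkk] at hk
  exact hk

variable (ξ : ℕ → Ω → ℕ)

/-- none of the points `ξ p`, `p ∈ F`, lies in `I` -/
def Av (F I : Finset ℕ) : Set Ω := ⋂ p ∈ F, {ω | ξ p ω ∉ I}

theorem mem_Av {F I : Finset ℕ} {ω : Ω} : ω ∈ Av ξ F I ↔ ∀ p ∈ F, ξ p ω ∉ I := by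
  unfold Av
  simp only [Set.mem_iInter, Set.mem_setOf_eq]

variable {ξ}

theorem Av_meas (hξ : ∀ p, Measurable (ξ p)) (F I : Finset ℕ) : MeasurableSet (Av ξ F I) :=
  MeasurableSet.biInter F.countable_toSet fun p _ => (hξ p) (MeasurableSet.of_discrete (s := {m | m ∉ I}))

theorem Av_real (hξ : ∀ p, Measurable (ξ p)) (h : iIndepFun ξ μ) (F I : Finset ℕ) :
    μ.real (Av ξ F I) = ∏ p ∈ F, (1 - μ.real {ω | ξ p ω ∈ I}) := by
  have h1 := h.measure_inter_preimage_eq_mul F (sets := fun _ => {m : ℕ | m ∉ I})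
    (fun i _ => MeasurableSet.of_discrete)
  have h2 : μ.real (Av ξ F I) = ∏ p ∈ F, μ.real {ω | ξ p ω ∉ I} := by
    unfold Av Measure.real
    rw [← ENNReal.toReal_prod]
    congr 1
  rw [h2]
  refine prod_congr rfl fun p _ => ?_
  have h3 : {ω | ξ p ω ∉ I} = {ω | ξ p ω ∈ I}ᶜ := rfl
  have h4 : MeasurableSet {ω | ξ p ω ∈ I} := (hξ p) (MeasurableSet.of_discrete (s := {m | m ∈ I}))
  rw [h3, measureReal_compl h4, probReal_univ]

theorem Av_inter (F I J : Finset ℕ) : Av ξ F I ∩ Av ξ F J = Av ξ F (I ∪ J) := by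
  ext ω
  rw [Set.mem_inter_iff, mem_Av, mem_Av, mem_Av]
  constructor
  · rintro ⟨a, b⟩ p hp hc
    rcases mem_union.1 hc with hc | hc
    · exact a p hp hc
    · exact b p hp hc
  · intro a
    exact ⟨fun p hp hc => a p hp (mem_union_left _ hc), fun p hp hc => a p hp (mem_union_right _ hc)⟩

/-- disjoint sets are avoided with negative correlation -/
theorem Av_neg (hξ : ∀ p, Measurable (ξ p)) (h : iIndepFun ξ μ) (F I J : Finset ℕ)
    (hd : Disjoint I J) : μ.real (Av ξ F I ∩ Av ξ F J) ≤ μ.real (Av ξ F I) * μ.real (Av ξ F J) := by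
  rw [Av_inter, Av_real μ hξ h, Av_real μ hξ h, Av_real μ hξ h, ← prod_mul_distrib]
  refine Finset.prod_le_prod (fun p _ => ?_) (fun p _ => ?_)
  · have := measureReal_le_one (μ := μ) (s := {ω | ξ p ω ∈ I ∪ J})
    linarith
  · have h1 : μ.real {ω | ξ p ω ∈ I ∪ J} = μ.real {ω | ξ p ω ∈ I} + μ.real {ω | ξ p ω ∈ J} := by
      have h4 : MeasurableSet {ω | ξ p ω ∈ J} := (hξ p) (MeasurableSet.of_discrete (s := {m | m ∈ J}))
      have h5 : Disjoint {ω | ξ p ω ∈ I} {ω | ξ p ω ∈ J} := by
        rw [Set.disjoint_left]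
        intro ω h1 h2
        exact (disjoint_left.1 hd) h1 h2
      rw [← measureReal_union h5 h4]
      congr 1
      ext ω
      simp
    rw [h1]
    have h2 : 0 ≤ μ.real {ω | ξ p ω ∈ I} * μ.real {ω | ξ p ω ∈ J} :=
      mul_nonneg measureReal_nonneg measureReal_nonneg
    linarith

end Pool.Agent.R526.RS
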