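import Pool.Agent.R526.RS.Low

set_option autoImplicit false

/-! # Every window of length `(1/δ + ε) log²` contains a shifted prime -/

namespace Pool.Agent.R526.RS

open MeasureTheory ProbabilityTheory Filter Finset Topology

open scoped Classical

variable {Ω : Type} [MeasurableSpace Ω] (μ : Measure Ω) [IsProbabilityMeasure μ] {ξ : ℕ → Ω → ℕ}

theorem one_up (hξ : ∀ p, Measurable (ξ p)) (hind : iIndepFun ξ μ) (A : ℕ) (hA : 1 ≤ A)
    (W : ℕ → ℕ) (hW : Tendsto (fun p : ℕ => (W p : ℝ) / Dl A p) atTop (𝓝 1)) (δ : ℝ) (hδ0 : 0 < δ)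
    (p₀ : ℕ) (hlaw : ∀ p, p.Prime → p₀ ≤ p → Law μ (ξ p) p (W p) δ)
    (h₀ e : ℝ) (hh₀ : 0 < h₀) (he : 0 < e) (he1 : e ≤ 1 / 10) :
    ∀ᶠ n : ℕ in atTop,
      μ.real (Av ξ ((Icc 1 n).filter (fun p : ℕ => p.Prime ∧ (n : ℝ) - (1 - 3 * e) * Dl A n < p))
        (Ioc n (n + ⌈h₀ * (Real.log n) ^ 2⌉₊))) ≤
      Real.exp (-((1 - 4 * e) / (1 + e) * (δ * h₀) * Real.log n)) := by
  filter_upwards [shifts A hA W hW e he he1 (h₀ + 1), primes_left A hA e he he1,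
    basic A (max 10 (2 * p₀)) 1 one_pos] with n hsh hpr hba
  obtain ⟨s0, s1, s2, s3, s4⟩ := hsh
  obtain ⟨-, hpr2⟩ := hpr
  obtain ⟨hL1, hΔL, -, hn1⟩ := hba
  set L := Real.log n with hL
  set Δ := Dl A n with hΔ
  set H := ⌈h₀ * L ^ 2⌉₊ with hH
  have hL10 : 10 ≤ L := (le_max_left _ _).trans hL1
  have hL0 : 0 < L := by linarith
  have hn10 : (10 : ℝ) ≤ n := (le_max_left _ _).trans hn1
  have hnp : 2 * (p₀ : ℝ) ≤ n := (le_max_right _ _).trans hn1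
  have hLL : (1 : ℝ) ≤ L ^ 2 := one_le_pow₀ (by linarith)
  have hΔ0 : 0 < Δ := by rw [hΔ, Dl, ← hL]; positivity
  have hH1 : h₀ * L ^ 2 ≤ H := Nat.le_ceil _
  have hH2 : (H : ℝ) ≤ e * Δ := by
    have h1 : (H : ℝ) < h₀ * L ^ 2 + 1 := Nat.ceil_lt_add_one (by positivity)
    have h2 : (h₀ + 1) * L ^ 2 = h₀ * L ^ 2 + L ^ 2 := by ring
    linarith
  have hΔn : 10 * Δ ≤ n := by
    have h1 : L ^ A * Δ = n := by
      rw [hΔ, Dl, ← hL]
      field_simp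
    have h2 : 10 ≤ L ^ A := hL10.trans (le_self_pow₀ (by linarith) (by omega))
    rw [← h1]
    exact mul_le_mul_of_nonneg_right h2 hΔ0.le
  set R := (Icc 1 n).filter (fun p : ℕ => p.Prime ∧ (n : ℝ) - (1 - 3 * e) * Δ < p) with hR
  rw [Av_real μ hξ hind]
  set a : ℝ := δ * (h₀ * L ^ 2 / ((1 + e) * Δ)) with ha
  have hden : 0 < (1 + e) * Δ := by positivity
  have ha0 : 0 ≤ a := by positivity
  have hterm : ∀ p ∈ R, 1 - μ.real {ω | ξ p ω ∈ Ioc n (n + H)} ≤ Real.exp (-a) := by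
    intro p hp
    rw [hR, mem_filter, mem_Icc] at hp
    obtain ⟨⟨hp1, hpn⟩, hpp, hp3⟩ := hp
    have h3e : (1 - 3 * e) * Δ ≤ Δ := by
      have : 0 ≤ e * Δ := by positivity
      nlinarith
    have hp0 : p₀ ≤ p := by
      have : (p₀ : ℝ) ≤ p := by linarith
      exact_mod_cast this
    have h5e : (n : ℝ) - (1 + 2 * e) * Δ < p := by
      have : 0 ≤ e * Δ := by positivity
      nlinarith
    obtain ⟨w1, w2⟩ := s2 p hpn h5e
    have hWpos : (0 : ℝ) < W p := by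
      refine lt_of_lt_of_le ?_ w1
      exact mul_pos (by linarith) hΔ0
    have hle : n + H ≤ p + W p := by
      have h6 : ((n + H : ℕ) : ℝ) ≤ ((p + W p : ℕ) : ℝ) := by
        push_cast
        nlinarith
      exact_mod_cast h6
    rw [win_eq μ (hξ p) (hlaw p hpp hp0) n H hpn hle]
    have h7 : a ≤ δ * (H / W p) := by
      rw [ha]
      apply mul_le_mul_of_nonneg_left _ hδ0.le
      exact div_le_div₀ (Nat.cast_nonneg H) hH1 hWpos w2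
    have h8 := Real.add_one_le_exp (-a)
    linarith
  refine (Finset.prod_le_prod (fun p _ => ?_) hterm).trans ?_
  · have := measureReal_le_one (μ := μ) (s := {ω | ξ p ω ∈ Ioc n (n + H)})
    linarith
  · rw [prod_const, ← Real.exp_nat_mul]
    apply Real.exp_le_exp.2
    have h1 : (1 - 4 * e) * (Δ / L) * a ≤ (R.card : ℝ) * a := mul_le_mul_of_nonneg_right hpr2 ha0
    have h2 : (1 - 4 * e) * (Δ / L) * a = (1 - 4 * e) / (1 + e) * (δ * h₀) * L := by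
      rw [ha]
      field_simp
    linarith

/-- almost surely all large windows contain shifted primes -/
theorem cover (hξ : ∀ p, Measurable (ξ p)) (hind : iIndepFun ξ μ) (A : ℕ) (hA : 1 ≤ A)
    (W : ℕ → ℕ) (hW : Tendsto (fun p : ℕ => (W p : ℝ) / Dl A p) atTop (𝓝 1)) (δ : ℝ) (hδ0 : 0 < δ)
    (p₀ : ℕ) (hlaw : ∀ p, p.Prime → p₀ ≤ p → Law μ (ξ p) p (W p) δ)
    (h₀ : ℝ) (hh₀ : 1 < δ * h₀) :
    ∀ᵐ ω ∂μ, ∀ᶠ n : ℕ in atTop, ∃ q : ℕ, (∃ p : ℕ, p.Prime ∧ ξ p ω = q) ∧ n < q ∧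
      q ≤ n + ⌈h₀ * (Real.log n) ^ 2⌉₊ := by
  have hh0 : 0 < h₀ := by
    by_contra hcon
    have : δ * h₀ ≤ 0 := mul_nonpos_of_nonneg_of_nonpos hδ0.le (not_lt.1 hcon)
    linarith
  set s : ℝ := δ * h₀ with hs
  set e : ℝ := min (1 / 10) ((s - 1) / (2 * (4 * s + 1))) with he
  have he0 : 0 < e := lt_min (by norm_num) (div_pos (by linarith) (by positivity))
  have he1 : e ≤ 1 / 10 := min_le_left _ _
  have he2 : e * (2 * (4 * s + 1)) ≤ s - 1 := by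
    have h1 : e ≤ (s - 1) / (2 * (4 * s + 1)) := min_le_right _ _
    rwa [le_div_iff₀ (by positivity)] at h1
  set E : ℝ := (1 - 4 * e) / (1 + e) * s with hE
  have hE1 : 1 < E := by
    rw [hE, div_mul_eq_mul_div, lt_div_iff₀ (by positivity)]
    have : 0 < e * (4 * s + 1) := by positivity
    nlinarith
  have hup := one_up μ hξ hind A hA W hW δ hδ0 p₀ hlaw h₀ e hh0 he0 he1
  have hbc := bc_sum μ (fun n : ℕ => Av ξ ((Icc 1 n).filter
    (fun p : ℕ => p.Prime ∧ (n : ℝ) - (1 - 3 * e) * Dl A n < p))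
        (Ioc n (n + ⌈h₀ * (Real.log n) ^ 2⌉₊))) (fun n : ℕ => (n : ℝ) ^ (-E))
    (fun n => by positivity) (Real.summable_nat_rpow.2 (by linarith)) (by
      filter_upwards [hup, eventually_ge_atTop 1] with n hn hn1
      have hn0 : (0 : ℝ) < n := by exact_mod_cast hn1
      rw [Real.rpow_def_of_pos hn0]
      refine hn.trans (le_of_eq ?_)
      congr 1
      rw [hE]
      ring)
  filter_upwards [hbc] with ω hω
  filter_upwards [hω] with n hn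
  rw [mem_Av] at hn
  push Not at hn
  obtain ⟨p, hp, hp2⟩ := hn
  rw [mem_filter] at hp
  rw [mem_Ioc] at hp2
  exact ⟨ξ p ω, ⟨p, hp.2.1, rfl⟩, hp2.1, hp2.2⟩

/-- the largest gap, if all windows contain elements -/
theorem upper_of (Q : ℕ → Prop) (h₀ ε : ℝ) (hh₀ : 0 < h₀) (hε : 0 < ε)
    (hQ : ∀ᶠ n : ℕ in atTop, ∃ q : ℕ, Q q ∧ n < q ∧ q ≤ n + ⌈h₀ * (Real.log n) ^ 2⌉₊) :
    ∀ᶠ x : ℝ in atTop, ∀ a b : ℕ, a < b → (b : ℝ) ≤ x →
      (∀ p, Q p → ¬ (a < p ∧ p < b)) → (b : ℝ) - a ≤ (h₀ + ε) * (Real.log x) ^ 2 := by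
  obtain ⟨n₁, hn₁⟩ := eventually_atTop.1 hQ
  obtain ⟨n₀, hn₀, hn₀1⟩ : ∃ n₀, n₁ ≤ n₀ ∧ 1 ≤ n₀ := ⟨max n₁ 1, le_max_left _ _, le_max_right _ _⟩
  have hlog := Real.tendsto_log_atTop.eventually_ge_atTop
    (max 1 ((n₀ + ⌈h₀ * (Real.log n₀) ^ 2⌉₊ + 1) / ε))
  filter_upwards [hlog, eventually_ge_atTop (1 : ℝ)] with x hx hx1 a b hab hbx hno
  have hl1 : 1 ≤ Real.log x := (le_max_left _ _).trans hx
  have hl2 : ((n₀ : ℝ) + ⌈h₀ * (Real.log n₀) ^ 2⌉₊ + 1) / ε ≤ Real.log x := (le_max_right _ _).trans hx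
  rw [div_le_iff₀ hε] at hl2
  have hsq : Real.log x ≤ (Real.log x) ^ 2 := by nlinarith
  have hεl : (n₀ : ℝ) + ⌈h₀ * (Real.log n₀) ^ 2⌉₊ + 1 ≤ ε * (Real.log x) ^ 2 := by
    have := mul_le_mul_of_nonneg_left hsq hε.le
    linarith
  have hn₀r : (0 : ℝ) ≤ n₀ := Nat.cast_nonneg _
  have hcr : (0 : ℝ) ≤ (⌈h₀ * (Real.log n₀) ^ 2⌉₊ : ℝ) := Nat.cast_nonneg _
  rcases Nat.lt_or_ge a n₀ with ha | ha
  · obtain ⟨q, hq1, hq2, hq3⟩ := hn₁ n₀ hn₀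
    have hbq : b ≤ q := by
      by_contra hcon
      exact hno q hq1 ⟨by omega, not_le.1 hcon⟩
    have h1 : (b : ℝ) ≤ n₀ + ⌈h₀ * (Real.log n₀) ^ 2⌉₊ := by exact_mod_cast hbq.trans hq3
    have ha0 : (0 : ℝ) ≤ a := Nat.cast_nonneg a
    have h2 : 0 ≤ h₀ * (Real.log x) ^ 2 := by positivity
    linarith
  · obtain ⟨q, hq1, hq2, hq3⟩ := hn₁ a (hn₀.trans ha)
    have hbq : b ≤ q := by
      by_contra hcon
      exact hno q hq1 ⟨hq2, not_le.1 hcon⟩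
    have h1 : (b : ℝ) ≤ a + ⌈h₀ * (Real.log a) ^ 2⌉₊ := by exact_mod_cast hbq.trans hq3
    have h2 : ((⌈h₀ * (Real.log a) ^ 2⌉₊ : ℕ) : ℝ) < h₀ * (Real.log a) ^ 2 + 1 :=
      Nat.ceil_lt_add_one (by positivity)
    have ha1 : (1 : ℝ) ≤ a := by exact_mod_cast hn₀1.trans ha
    have habr : (a : ℝ) ≤ b := by exact_mod_cast hab.le
    have hla : Real.log a ≤ Real.log x := Real.log_le_log (by linarith) (by linarith)
    have hla0 : 0 ≤ Real.log a := Real.log_nonneg ha1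
    have h3 : h₀ * (Real.log a) ^ 2 ≤ h₀ * (Real.log x) ^ 2 := by gcongr
    linarith

end Pool.Agent.R526.RS
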